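import Mathlib

set_option autoImplicit false

open Matrix MatrixGroups UpperHalfPlane
open scoped Pointwise

namespace Pool.Agent.Results.MP_b9a4b9_al.Disproof

/-- A Fuchsian group: a finitely generated, discrete, non-elementary group of isometries of the
hyperbolic plane. Discreteness is stated as proper discontinuity of the action, and non-elementary
means that no subgroup of finite index is commutative. -/
structure IsFuchsian (Γ : Subgroup (ℍ ≃ᵢ ℍ)) : Prop where
  fg : Γ.FG
  discrete : ∀ K : Set ℍ, IsCompact K → {g : ℍ ≃ᵢ ℍ | g ∈ Γ ∧ (g '' K ∩ K).Nonempty}.Finite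
  nonelementary : ∀ A : Subgroup (ℍ ≃ᵢ ℍ), A ≤ Γ → A.relIndex Γ ≠ 0 →
    ∃ a ∈ A, ∃ b ∈ A, a * b ≠ b * a

/-- The proportion of homomorphisms from `Γ` to `G` with the property `P`. -/
noncomputable def proportion (Γ G : Type*) [Group Γ] [Group G] (P : (Γ →* G) → Prop) : ℝ :=
  (Nat.card {φ : Γ →* G // P φ} : ℝ) / (Nat.card (Γ →* G) : ℝ)

/-- Hypothesis (H): a random homomorphism from `Γ` to a group `G` of the family `S` is surjective
with probability tending to one as the order of `G` tends to infinity. -/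
def HypothesisH (Γ : Type*) [Group Γ] {ι : Type*} (S : ι → Type*) [∀ i, Group (S i)] : Prop :=
  ∀ ε : ℝ, 0 < ε → ∃ N : ℕ, ∀ i, N ≤ Nat.card (S i) →
    1 - ε ≤ proportion Γ (S i) (fun φ => Function.Surjective φ)

/-- The family `S` is an infinite set of pairwise non-isomorphic non-abelian finite simple groups. -/
structure IsInfiniteSetOfFiniteSimpleGroups {ι : Type*} (S : ι → Type*) [∀ i, Group (S i)] :
    Prop where
  infinite : Infinite ι
  distinct : ∀ i j, Nonempty (S i ≃* S j) → i = j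
  finite : ∀ i, Finite (S i)
  simple : ∀ i, IsSimpleGroup (S i)
  nonabelian : ∀ i, ∃ a b : S i, a * b ≠ b * a

/-- The groups PSL(2, p), one for each prime p ≥ 5. -/
abbrev PSLFamily (q : {p : ℕ // p.Prime ∧ 5 ≤ p}) : Type := PSL(2, ZMod q.1)


section entries
variable {R : Type*} [CommRing R]

def mk2 (a b c d : R) (h : a * d - b * c = 1) : SL(2, R) := ⟨!![a, b; c, d], by rw [det_fin_two_of]; exact h⟩

@[simp] lemma mk2_00 (a b c d : R) (h : a * d - b * c = 1) : (mk2 a b c d h) 0 0 = a := rfl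
@[simp] lemma mk2_01 (a b c d : R) (h : a * d - b * c = 1) : (mk2 a b c d h) 0 1 = b := rfl
@[simp] lemma mk2_10 (a b c d : R) (h : a * d - b * c = 1) : (mk2 a b c d h) 1 0 = c := rfl
@[simp] lemma mk2_11 (a b c d : R) (h : a * d - b * c = 1) : (mk2 a b c d h) 1 1 = d := rfl

lemma mul_ij (x y : SL(2, R)) (i j : Fin 2) : (x * y) i j = x i 0 * y 0 j + x i 1 * y 1 j := by
  change ((x : Matrix (Fin 2) (Fin 2) R) * (y : Matrix (Fin 2) (Fin 2) R)) i j = _
  rw [Matrix.mul_apply, Fin.sum_univ_two]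

lemma inv_00 (x : SL(2, R)) : x⁻¹ 0 0 = x 1 1 := by
  exact congrFun (congrFun (adjugate_fin_two (x : Matrix (Fin 2) (Fin 2) R)) _) _
lemma inv_01 (x : SL(2, R)) : x⁻¹ 0 1 = - x 0 1 := by
  exact congrFun (congrFun (adjugate_fin_two (x : Matrix (Fin 2) (Fin 2) R)) _) _
lemma inv_10 (x : SL(2, R)) : x⁻¹ 1 0 = - x 1 0 := by
  exact congrFun (congrFun (adjugate_fin_two (x : Matrix (Fin 2) (Fin 2) R)) _) _
lemma inv_11 (x : SL(2, R)) : x⁻¹ 1 1 = x 0 0 := by
  exact congrFun (congrFun (adjugate_fin_two (x : Matrix (Fin 2) (Fin 2) R)) _) _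

lemma neg_ij (x : SL(2, R)) (i j : Fin 2) : (-x) i j = - x i j := rfl

lemma one_00 : (1 : SL(2, R)) 0 0 = 1 := rfl
lemma one_01 : (1 : SL(2, R)) 0 1 = 0 := rfl
lemma one_10 : (1 : SL(2, R)) 1 0 = 0 := rfl
lemma one_11 : (1 : SL(2, R)) 1 1 = 1 := rfl

lemma ext4 {x y : SL(2, R)} (h00 : x 0 0 = y 0 0) (h01 : x 0 1 = y 0 1) (h10 : x 1 0 = y 1 0)
    (h11 : x 1 1 = y 1 1) : x = y := by
  apply Matrix.SpecialLinearGroup.ext
  intro i j
  fin_cases i <;> fin_cases j
  exacts [h00, h01, h10, h11]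

lemma det_eq (h : SL(2, R)) : h 0 0 * h 1 1 - h 0 1 * h 1 0 = 1 := by
  have := h.det_coe; rwa [det_fin_two] at this

end entries

variable {p : ℕ} [hp : Fact p.Prime]

/-- upper unipotent -/
def up (s : ZMod p) : SL(2, ZMod p) := mk2 1 s 0 1 (by ring)
def lo (s : ZMod p) : SL(2, ZMod p) := mk2 1 0 s 1 (by ring)

lemma up_mul (s t : ZMod p) : up s * up t = up (s + t) := by
  apply ext4 <;> simp only [mul_ij, up, mk2_00, mk2_01, mk2_10, mk2_11] <;> ring

lemma up_zero : up (0 : ZMod p) = 1 := by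
  apply ext4 <;> simp only [up, mk2_00, mk2_01, mk2_10, mk2_11, one_00, one_01, one_10, one_11]

lemma up_pow (s : ZMod p) (n : ℕ) : up s ^ n = up ((n : ZMod p) * s) := by
  induction n with
  | zero => simp [up_zero]
  | succ n ih => rw [pow_succ, ih, up_mul]; congr 1; push_cast; ring

lemma up_mem_of (H : Subgroup SL(2, ZMod p)) {α : ZMod p} (hα : α ≠ 0) (h : up α ∈ H)
    (s : ZMod p) : up s ∈ H := by
  have : up s = up α ^ (s / α).val := by
    rw [up_pow]; congr 1
    rw [ZMod.natCast_zmod_val]; field_simp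
  rw [this]; exact H.pow_mem h _

/-- if H contains all upper unipotents and an element with nonzero lower-left entry,
then it is everything -/
lemma eq_top_of_up (H : Subgroup SL(2, ZMod p)) (hu : ∀ s, up s ∈ H)
    {h : SL(2, ZMod p)} (hh : h ∈ H) (hc : h 1 0 ≠ 0) : H = ⊤ := by
  have hdet := det_eq h
  -- w = [[0,-1/c],[c,0]]
  set w : SL(2, ZMod p) := mk2 0 (-(h 1 0)⁻¹) (h 1 0) 0 (by field_simp; ring) with hwdef
  have hw : w ∈ H := by
    have : w = up (-(h 0 0) / h 1 0) * h * up (-(h 1 1) / h 1 0) := by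
      apply ext4 <;> simp only [mul_ij, up, mk2_00, mk2_01, mk2_10, mk2_11, hwdef] <;> field_simp
      · ring
      · linear_combination hdet
      · ring
      · ring
    rw [this]; exact H.mul_mem (H.mul_mem (hu _) hh) (hu _)
  have hl : ∀ s, lo s ∈ H := by
    intro s
    have : lo s = w * up (- s / (h 1 0) ^ 2) * w⁻¹ := by
      rw [eq_mul_inv_iff_mul_eq]
      apply ext4 <;> simp only [mul_ij, up, lo, mk2_00, mk2_01, mk2_10, mk2_11, hwdef] <;> field_simp <;> ring
    rw [this]; exact H.mul_mem (H.mul_mem hw (hu _)) (H.inv_mem hw)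
  rw [eq_top_iff]
  intro A _
  refine SL2.transvection_induction (fun A => A ∈ H) ?_ (fun A B hA hB => H.mul_mem hA hB) A
  intro i j hij c
  have h1 : (SpecialLinearGroup.transvection hij c : SL(2, ZMod p)) = up c ∨
      (SpecialLinearGroup.transvection hij c : SL(2, ZMod p)) = lo c := by
    fin_cases i <;> fin_cases j
    · exact absurd rfl hij
    · left; apply ext4 <;> simp [up, SpecialLinearGroup.transvection_coe]
    · right; apply ext4 <;> simp [lo, SpecialLinearGroup.transvection_coe]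
    · exact absurd rfl hij
  rcases h1 with h1 | h1 <;> rw [h1]
  · exact hu c
  · exact hl c

/-- a trace 2, non-identity element is conjugate to an upper unipotent -/
lemma exists_conj_up (u : SL(2, ZMod p)) (ht : u 0 0 + u 1 1 = 2) (h1 : u ≠ 1) :
    ∃ g : SL(2, ZMod p), ∃ α : ZMod p, α ≠ 0 ∧ g⁻¹ * u * g = up α := by
  have hdet := det_eq u
  have key : (u 0 0 - 1) * (u 0 0 - 1) + u 0 1 * u 1 0 = 0 := by
    have : u 1 1 = 2 - u 0 0 := by linear_combination ht
    rw [this] at hdet; linear_combination (-1 : ZMod p) * hdet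
  -- eigenvector v = (v0, v1)
  have hv : ∃ v0 v1 : ZMod p, (v0 ≠ 0 ∨ v1 ≠ 0) ∧ u 0 0 * v0 + u 0 1 * v1 = v0 ∧
      u 1 0 * v0 + u 1 1 * v1 = v1 := by
    by_cases hb : u 0 1 = 0
    · have ha : u 0 0 = 1 := by
        rw [hb, zero_mul, add_zero] at key
        have := mul_self_eq_zero.mp key
        linear_combination this
      have hd : u 1 1 = 1 := by rw [ha] at ht; linear_combination ht
      refine ⟨0, 1, Or.inr one_ne_zero, ?_, ?_⟩
      · rw [hb]; ring
      · rw [hd]; ring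
    · refine ⟨u 0 1, 1 - u 0 0, Or.inl hb, by ring, ?_⟩
      have : u 1 1 = 2 - u 0 0 := by linear_combination ht
      rw [this]; linear_combination key
  obtain ⟨v0, v1, hv0, e0, e1⟩ := hv
  -- complete to SL2 matrix
  have hg : ∃ g : SL(2, ZMod p), g 0 0 = v0 ∧ g 1 0 = v1 := by
    rcases hv0 with h0 | h0
    · exact ⟨mk2 v0 0 v1 v0⁻¹ (by field_simp; ring), rfl, rfl⟩
    · exact ⟨mk2 v0 (-v1⁻¹) v1 0 (by field_simp; ring), rfl, rfl⟩
  obtain ⟨g, g0, g1⟩ := hg
  have hgd := det_eq g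
  rw [g0, g1] at hgd
  have e00 : (g⁻¹ * u * g) 0 0 = 1 := by
    simp only [mul_ij, inv_00, inv_01, g0, g1]
    linear_combination g 1 1 * e0 - g 0 1 * e1 + hgd
  have e10 : (g⁻¹ * u * g) 1 0 = 0 := by
    simp only [mul_ij, inv_10, inv_11, g0, g1]
    linear_combination - v1 * e0 + v0 * e1
  have hd := det_eq (g⁻¹ * u * g)
  rw [e00, e10, one_mul, mul_zero, sub_zero] at hd
  have hconj : g⁻¹ * u * g = up ((g⁻¹ * u * g) 0 1) := by
    apply ext4
    · simpa [up] using e00
    · simp [up]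
    · simpa [up] using e10
    · simpa [up] using hd
  refine ⟨g, (g⁻¹ * u * g) 0 1, ?_, hconj⟩
  intro h0
  apply h1
  rw [h0, up_zero] at hconj
  calc u = g * (g⁻¹ * u * g) * g⁻¹ := by group
    _ = 1 := by rw [hconj]; group

lemma trace_two_of_pow (u : SL(2, ZMod p)) (hu1 : u ^ p = 1) : u 0 0 + u 1 1 = 2 := by
  have hnil : IsNilpotent ((u : Matrix (Fin 2) (Fin 2) (ZMod p)) - 1) := by
    refine ⟨p, ?_⟩
    rw [sub_pow_char_of_commute p (Commute.one_right _)]
    have h2 : (u : Matrix (Fin 2) (Fin 2) (ZMod p)) ^ p = 1 := congrArg Subtype.val hu1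
    rw [one_pow, h2, sub_self]
  have := (Matrix.isNilpotent_trace_of_isNilpotent hnil).eq_zero
  rw [Matrix.trace_sub, trace_fin_two, trace_one] at this
  simp only [Fintype.card_fin, Nat.cast_ofNat] at this
  linear_combination this

/-- Subgroups of order divisible by p -/
lemma top_or_borel (H : Subgroup SL(2, ZMod p)) (hH : p ∣ Nat.card H) :
    H = ⊤ ∨ ∃ g : SL(2, ZMod p), ∀ h ∈ H, (g⁻¹ * h * g) 1 0 = 0 := by
  obtain ⟨u, hu⟩ := exists_prime_orderOf_dvd_card' p hH
  have hu1 : (u : SL(2, ZMod p)) ^ p = 1 := by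
    have := pow_orderOf_eq_one u
    rw [hu] at this
    exact_mod_cast congrArg Subtype.val this
  have hune : (u : SL(2, ZMod p)) ≠ 1 := by
    intro h
    have : u = 1 := Subtype.ext h
    rw [this, orderOf_one] at hu
    exact hp.out.one_lt.ne hu
  have htr := trace_two_of_pow (u : SL(2, ZMod p)) hu1
  obtain ⟨g, α, hα, hg⟩ := exists_conj_up (u : SL(2, ZMod p)) htr hune
  by_cases hall : ∀ h ∈ H, (g⁻¹ * h * g) 1 0 = 0
  · exact Or.inr ⟨g, hall⟩
  · left
    push Not at hall
    obtain ⟨h, hh, hne⟩ := hall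
    have htop : H.map (MulAut.conj g⁻¹).toMonoidHom = ⊤ := by
      refine eq_top_of_up _ (up_mem_of _ hα ?_) (h := g⁻¹ * h * g) ?_ hne
      · exact ⟨u, u.2, by rw [← hg]; simp⟩
      · exact ⟨h, hh, by simp⟩
    rw [eq_top_iff]
    intro x _
    have : g⁻¹ * x * g ∈ H.map (MulAut.conj g⁻¹).toMonoidHom := by rw [htop]; trivial
    obtain ⟨y, hy, hxy⟩ := this
    have : y = x := by
      have h3 : g⁻¹ * y * g = g⁻¹ * x * g := by simpa using hxy
      have := mul_right_cancel h3
      exact mul_left_cancel this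
    exact this ▸ hy



noncomputable local instance decEqK : DecidableEq (AlgebraicClosure (ZMod p)) := Classical.decEq _

noncomputable def rho (p : ℕ) [hp : Fact p.Prime] : SL(2, ZMod p) →* GL (Fin 2) (AlgebraicClosure (ZMod p)) :=
  (Matrix.GeneralLinearGroup.map (algebraMap (ZMod p) (AlgebraicClosure (ZMod p)))).comp
    Matrix.SpecialLinearGroup.toGL

lemma rho_ij (g : SL(2, ZMod p)) (i j : Fin 2) :
    (rho p g) i j = algebraMap (ZMod p) (AlgebraicClosure (ZMod p)) (g i j) := rfl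

noncomputable instance actP : MulAction SL(2, ZMod p) (OnePoint (AlgebraicClosure (ZMod p))) :=
  MulAction.compHom _ (rho p)

lemma smul_rho (g : SL(2, ZMod p)) (P : OnePoint (AlgebraicClosure (ZMod p))) :
    g • P = rho p g • P := rfl

lemma fix_inf (g : SL(2, ZMod p)) :
    g • (OnePoint.infty : OnePoint (AlgebraicClosure (ZMod p))) = OnePoint.infty ↔ g 1 0 = 0 := by
  rw [smul_rho, OnePoint.smul_infty_eq_self_iff, rho_ij]
  exact map_eq_zero_iff _ (algebraMap (ZMod p) (AlgebraicClosure (ZMod p))).injective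

lemma fix_coe (g : SL(2, ZMod p)) (z : AlgebraicClosure (ZMod p)) :
    g • (z : OnePoint (AlgebraicClosure (ZMod p))) = z ↔
    algebraMap (ZMod p) (AlgebraicClosure (ZMod p)) (g 1 0) * z ^ 2 +
    algebraMap (ZMod p) (AlgebraicClosure (ZMod p)) (g 1 1 - g 0 0) * z -
    algebraMap (ZMod p) (AlgebraicClosure (ZMod p)) (g 0 1) = 0 := by
  rw [smul_rho, ← Matrix.GeneralLinearGroup.fixpointPolynomial_aeval_eq_zero_iff]
  simp only [Matrix.GeneralLinearGroup.fixpointPolynomial, map_sub, map_add, map_mul, Polynomial.aeval_C,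
    Polynomial.aeval_X_pow, Polynomial.aeval_X, Algebra.algebraMap_self_apply, rho_ij]

/-- a non-central element has at most two fixed points -/
lemma fix_le_two (g : SL(2, ZMod p)) (h1 : g ≠ 1) (h2 : g ≠ -1) :
    ∃ P Q : OnePoint (AlgebraicClosure (ZMod p)), ∀ R, g • R = R → R = P ∨ R = Q := by
  set f := algebraMap (ZMod p) (AlgebraicClosure (ZMod p)) with hf
  have finj : Function.Injective f := f.injective
  have hdet := det_eq g
  by_cases hc : g 1 0 = 0
  · by_cases hd : g 1 1 = g 0 0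
    · -- scalar times unipotent: b ≠ 0
      have hb : g 0 1 ≠ 0 := by
        intro hb
        have : (g 0 0 - 1) * (g 0 0 + 1) = 0 := by
          rw [hb, hc, hd] at hdet; linear_combination hdet
        rcases mul_eq_zero.mp this with h | h
        · apply h1
          have h' : g 0 0 = 1 := by linear_combination h
          apply ext4 <;> simp only [one_00, one_01, one_10, one_11, hb, hc, hd, h']
        · apply h2
          have h' : g 0 0 = -1 := by linear_combination h
          apply ext4 <;> simp only [neg_ij, one_00, one_01, one_10, one_11, hb, hc, hd, h', neg_zero]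
      refine ⟨OnePoint.infty, OnePoint.infty, fun R hR => ?_⟩
      induction R using OnePoint.rec with
      | infty => left; rfl
      | coe z =>
        rw [fix_coe, hc, hd] at hR
        simp only [map_zero, zero_mul, sub_self, add_zero, zero_sub, neg_eq_zero] at hR
        exact absurd ((map_eq_zero_iff f finj).mp hR) hb
    · refine ⟨OnePoint.infty, ((f (g 0 1) / f (g 1 1 - g 0 0) : AlgebraicClosure (ZMod p)) : OnePoint (AlgebraicClosure (ZMod p))), fun R hR => ?_⟩
      have hne : f (g 1 1 - g 0 0) ≠ 0 := by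
        intro h; exact hd (sub_eq_zero.mp ((map_eq_zero_iff f finj).mp h))
      induction R using OnePoint.rec with
      | infty => left; rfl
      | coe z =>
        right
        rw [fix_coe, hc] at hR
        simp only [map_zero, zero_mul, zero_add] at hR
        rw [OnePoint.coe_eq_coe, eq_div_iff hne]
        linear_combination hR
  · -- c ≠ 0
    have hne : f (g 1 0) ≠ 0 := fun h => hc ((map_eq_zero_iff f finj).mp h)
    have hninf : ∀ R : OnePoint (AlgebraicClosure (ZMod p)), g • R = R → ∃ z : AlgebraicClosure (ZMod p), R = (z : OnePoint (AlgebraicClosure (ZMod p))) := by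
      intro R hR
      induction R using OnePoint.rec with
      | infty => exact absurd ((fix_inf g).mp hR) hc
      | coe z => exact ⟨z, rfl⟩
    by_cases hex : ∃ z : AlgebraicClosure (ZMod p), g • (z : OnePoint (AlgebraicClosure (ZMod p))) = z
    · obtain ⟨z, hz⟩ := hex
      refine ⟨z, ((-f (g 1 1 - g 0 0) / f (g 1 0) - z : AlgebraicClosure (ZMod p)) : OnePoint (AlgebraicClosure (ZMod p))), fun R hR => ?_⟩
      obtain ⟨w, rfl⟩ := hninf R hR
      rw [fix_coe] at hz hR
      by_cases hzw : w = z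
      · left; rw [hzw]
      · right
        rw [OnePoint.coe_eq_coe]
        have h3 : (w - z) * (f (g 1 0) * (w + z) + f (g 1 1 - g 0 0)) = 0 := by
          linear_combination hR - hz
        have h4 := (mul_eq_zero.mp h3).resolve_left (sub_ne_zero.mpr hzw)
        field_simp
        linear_combination h4
    · refine ⟨OnePoint.infty, OnePoint.infty, fun R hR => ?_⟩
      obtain ⟨w, rfl⟩ := hninf R hR
      exact absurd ⟨w, hR⟩ hex

/-- an element with trace not ±2 has exactly two fixed points -/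
lemma fix_eq_two (hp2 : p ≠ 2) (g : SL(2, ZMod p)) (ht : (g 0 0 + g 1 1) ^ 2 ≠ 4) :
    ∃ P Q : OnePoint (AlgebraicClosure (ZMod p)), P ≠ Q ∧ ∀ R, g • R = R ↔ R = P ∨ R = Q := by
  set f := algebraMap (ZMod p) (AlgebraicClosure (ZMod p)) with hf
  have finj : Function.Injective f := f.injective
  have hdet := det_eq g
  have two_ne : (2 : ZMod p) ≠ 0 := by
    intro h
    have h' : ((2 : ℕ) : ZMod p) = 0 := by exact_mod_cast h
    rw [ZMod.natCast_eq_zero_iff] at h'
    exact hp2 ((Nat.prime_dvd_prime_iff_eq hp.out Nat.prime_two).mp h')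
  by_cases hc : g 1 0 = 0
  · have hd : g 1 1 ≠ g 0 0 := by
      intro hd; apply ht; rw [hd]; rw [hc, hd] at hdet; linear_combination 4 * hdet
    have hne : f (g 1 1 - g 0 0) ≠ 0 := by
      intro h; exact hd (sub_eq_zero.mp ((map_eq_zero_iff f finj).mp h))
    refine ⟨OnePoint.infty, ((f (g 0 1) / f (g 1 1 - g 0 0) : AlgebraicClosure (ZMod p)) : OnePoint (AlgebraicClosure (ZMod p))), OnePoint.infty_ne_coe _, fun R => ?_⟩
    induction R using OnePoint.rec with
    | infty => rw [fix_inf]; simp [hc]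
    | coe z =>
      rw [fix_coe, hc]
      simp only [map_zero, zero_mul, zero_add, OnePoint.coe_ne_infty, false_or, OnePoint.coe_eq_coe]
      rw [eq_div_iff hne]
      constructor
      · intro h; linear_combination h
      · intro h; linear_combination h
  · have hne : f (g 1 0) ≠ 0 := fun h => hc ((map_eq_zero_iff f finj).mp h)
    have f2 : (2 : AlgebraicClosure (ZMod p)) ≠ 0 := by
      intro h
      exact two_ne ((map_eq_zero_iff f finj).mp (by rw [map_ofNat]; exact h))
    have : NeZero (2 : AlgebraicClosure (ZMod p)) := ⟨f2⟩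
    obtain ⟨s, hs⟩ := IsAlgClosed.exists_eq_mul_self (f ((g 0 0 + g 1 1) ^ 2 - 4))
    have hs0 : s ≠ 0 := by
      intro h
      rw [h, mul_zero] at hs
      exact ht (sub_eq_zero.mp ((map_eq_zero_iff f finj).mp hs))
    have hdisc : discrim (f (g 1 0)) (f (g 1 1 - g 0 0)) (-f (g 0 1)) = s * s := by
      rw [← hs, discrim]
      simp only [← map_pow, ← map_neg, ← map_mul, ← map_sub, ← map_ofNat f 4]
      congr 1
      linear_combination (-4 : ZMod p) * hdet
    refine ⟨(((-f (g 1 1 - g 0 0) + s) / (2 * f (g 1 0)) : AlgebraicClosure (ZMod p)) : OnePoint (AlgebraicClosure (ZMod p))),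
      (((-f (g 1 1 - g 0 0) - s) / (2 * f (g 1 0)) : AlgebraicClosure (ZMod p)) : OnePoint (AlgebraicClosure (ZMod p))), ?_, fun R => ?_⟩
    · rw [Ne, OnePoint.coe_eq_coe]
      intro h
      rw [div_left_inj' (mul_ne_zero f2 hne)] at h
      apply hs0
      have : 2 * s = 0 := by linear_combination h
      exact (mul_eq_zero.mp this).resolve_left f2
    · induction R using OnePoint.rec with
      | infty => rw [fix_inf]; simp [hc]
      | coe z =>
        rw [fix_coe, OnePoint.coe_eq_coe, OnePoint.coe_eq_coe, ← quadratic_eq_zero_iff hne hdisc z]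
        constructor
        · intro h; linear_combination h
        · intro h; linear_combination h


lemma arith1 {N s1 s2 s3 n2 n3 : ℕ} (h1 : 2 * s1 = N) (h2 : n2 * s2 = N) (h3 : n3 * s3 = N)
    (hn2 : 2 ≤ n2) (hn3 : 2 ≤ n3) (hs2 : 3 ≤ s2) (hs3 : 3 ≤ s3) (hsum : s1 + s2 + s3 = N + 2) :
    N ≤ 60 := by
  have key : ∀ a b x y : ℕ, a * x = 2 * s1 → b * y = 2 * s1 → 2 ≤ a → 2 ≤ b → 3 ≤ x → 3 ≤ y →
      x + y = s1 + 2 → a ≤ 3 → 2 * s1 ≤ 60 := by
    intro a b x y hax hby ha hb hx hy hxy ha3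
    interval_cases a
    · omega
    · have h6 : b < 6 := by
        by_contra hb6
        push Not at hb6
        have : 6 * y ≤ b * y := Nat.mul_le_mul_right _ hb6
        omega
      interval_cases b <;> omega
  by_cases c2 : n2 ≤ 3
  · have := key n2 n3 s2 s3 (by omega) (by omega) hn2 hn3 hs2 hs3 (by omega) c2
    omega
  · by_cases c3 : n3 ≤ 3
    · have := key n3 n2 s3 s2 (by omega) (by omega) hn3 hn2 hs3 hs2 (by omega) c3
      omega
    · push Not at c2 c3
      have e2 : 4 * s2 ≤ n2 * s2 := Nat.mul_le_mul_right _ c2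
      have e3 : 4 * s3 ≤ n3 * s3 := Nat.mul_le_mul_right _ c3
      omega

lemma arith3 {N s1 s2 s3 n1 n2 n3 : ℕ} (h1 : n1 * s1 = N) (h2 : n2 * s2 = N) (h3 : n3 * s3 = N)
    (hn1 : 2 ≤ n1) (hn2 : 2 ≤ n2) (hn3 : 2 ≤ n3) (hs1 : 3 ≤ s1) (hs2 : 3 ≤ s2) (hs3 : 3 ≤ s3)
    (hsum : s1 + s2 + s3 = N + 2) : N ≤ 60 := by
  by_cases c1 : n1 = 2
  · subst c1; exact arith1 h1 h2 h3 hn2 hn3 hs2 hs3 hsum
  by_cases c2 : n2 = 2
  · subst c2; exact arith1 h2 h1 h3 hn1 hn3 hs1 hs3 (by omega)
  by_cases c3 : n3 = 2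
  · subst c3; exact arith1 h3 h1 h2 hn1 hn2 hs1 hs2 (by omega)
  have e1 : 3 * s1 ≤ n1 * s1 := Nat.mul_le_mul_right _ (by omega)
  have e2 : 3 * s2 ≤ n2 * s2 := Nat.mul_le_mul_right _ (by omega)
  have e3 : 3 * s3 ≤ n3 * s3 := Nat.mul_le_mul_right _ (by omega)
  omega

lemma up_pow_p (α : ZMod p) : up α ^ p = 1 := by
  rw [up_pow, CharP.cast_eq_zero, zero_mul, up_zero]

lemma trace_ne (H : Subgroup SL(2, ZMod p)) (hneg : -1 ∈ H) (hcop : ¬ p ∣ Nat.card H)
    {g : SL(2, ZMod p)} (hg : g ∈ H) (h1 : g ≠ 1) (h2 : g ≠ -1) : (g 0 0 + g 1 1) ^ 2 ≠ 4 := by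
  have aux : ∀ u : SL(2, ZMod p), u ∈ H → u ≠ 1 → u 0 0 + u 1 1 ≠ 2 := by
    intro u hu hu1 ht
    obtain ⟨k, α, hα, hk⟩ := exists_conj_up u ht hu1
    have hup : u ^ p = 1 := by
      have : u = k * up α * k⁻¹ := by rw [← hk]; group
      rw [this, conj_pow, up_pow_p]; group
    apply hcop
    have ho : orderOf (⟨u, hu⟩ : H) = p := by
      apply orderOf_eq_prime
      · exact Subtype.ext (by simpa using hup)
      · intro h; exact hu1 (congrArg Subtype.val h)
    have h5 := orderOf_dvd_natCard (⟨u, hu⟩ : H)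
    rwa [ho] at h5
  intro ht
  have : (g 0 0 + g 1 1 - 2) * (g 0 0 + g 1 1 + 2) = 0 := by linear_combination ht
  rcases mul_eq_zero.mp this with h | h
  · exact aux g hg h1 (by linear_combination h)
  · refine aux (-g) ?_ ?_ ?_
    · have := H.mul_mem hneg hg
      simpa using this
    · intro h'; exact h2 (by rw [← h', neg_neg])
    · rw [neg_ij, neg_ij]; linear_combination (-1 : ZMod p) * h

lemma neg_one_smul' (P : OnePoint (AlgebraicClosure (ZMod p))) : (-1 : SL(2, ZMod p)) • P = P := by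
  induction P using OnePoint.rec with
  | infty => rw [fix_inf, neg_ij, one_10, neg_zero]
  | coe z =>
    rw [fix_coe]
    simp only [neg_ij, one_00, one_01, one_10, one_11, neg_zero, map_zero, sub_self, zero_mul, add_zero]

/-- the set of poles -/
def poles (H : Subgroup SL(2, ZMod p)) : SubMulAction H (OnePoint (AlgebraicClosure (ZMod p))) where
  carrier := {P | ∃ h ∈ H, h ≠ 1 ∧ h ≠ -1 ∧ h • P = P}
  smul_mem' := by
    rintro c P ⟨h, hh, h1, h2, h3⟩
    refine ⟨c * h * (c : SL(2, ZMod p))⁻¹, H.mul_mem (H.mul_mem c.2 hh) (H.inv_mem c.2), ?_, ?_, ?_⟩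
    · intro h'
      exact h1 (by rwa [mul_inv_eq_one, mul_eq_left] at h')
    · intro h'
      apply h2
      rw [mul_inv_eq_iff_eq_mul] at h'
      have : (c : SL(2, ZMod p)) * h = c * (-1) := by rw [h']; simp
      exact mul_left_cancel this
    · have : (c • P : OnePoint (AlgebraicClosure (ZMod p))) = (c : SL(2, ZMod p)) • P := rfl
      rw [this, mul_smul, mul_smul, inv_smul_smul, h3]

lemma mem_poles (H : Subgroup SL(2, ZMod p)) (P : OnePoint (AlgebraicClosure (ZMod p))) :
    P ∈ poles H ↔ ∃ h ∈ H, h ≠ 1 ∧ h ≠ -1 ∧ h • P = P := Iff.rfl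

lemma poles_finite (H : Subgroup SL(2, ZMod p)) : Finite (poles H) := by
  have hsub : (poles H : Set (OnePoint (AlgebraicClosure (ZMod p)))) ⊆
      ⋃ h ∈ {h : SL(2, ZMod p) | h ≠ 1 ∧ h ≠ -1}, {P | h • P = P} := by
    rintro P ⟨h, hh, h1, h2, h3⟩
    exact Set.mem_biUnion (show h ∈ {h : SL(2, ZMod p) | h ≠ 1 ∧ h ≠ -1} from ⟨h1, h2⟩) h3
  refine Set.Finite.subset (Set.Finite.biUnion (Set.toFinite _) ?_) hsub
  rintro h ⟨h1, h2⟩
  obtain ⟨P, Q, hPQ⟩ := fix_le_two h h1 h2
  exact Set.Finite.subset (Set.toFinite {P, Q}) (fun R hR => hPQ R hR)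

theorem small_or_pair (hp2 : p ≠ 2) (H : Subgroup SL(2, ZMod p)) (hneg : -1 ∈ H)
    (hcop : ¬ p ∣ Nat.card H) : Nat.card H ≤ 120 ∨
    ∃ P Q : OnePoint (AlgebraicClosure (ZMod p)), ∀ h ∈ H, (h • P = P ∨ h • P = Q) ∧ (h • Q = P ∨ h • Q = Q) := by
  classical
  by_contra hcon
  push Not at hcon
  obtain ⟨hbig, hno⟩ := hcon
  have : Fintype H := Fintype.ofFinite H
  have : Finite (poles H) := poles_finite H
  have : Fintype (poles H) := Fintype.ofFinite _
  have : Finite (MulAction.orbitRel.Quotient H (poles H)) := Quotient.finite _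
  have : Fintype (MulAction.orbitRel.Quotient H (poles H)) := Fintype.ofFinite _
  have hm : Nat.card H = Fintype.card H := Nat.card_eq_fintype_card
  set m := Fintype.card H with hmdef
  have neg_ne : (-1 : SL(2, ZMod p)) ≠ 1 := by
    intro h
    have : (-1 : SL(2, ZMod p)) 0 0 = (1 : SL(2, ZMod p)) 0 0 := by rw [h]
    rw [neg_ij, one_00] at this
    have h2 : ((2 : ℕ) : ZMod p) = 0 := by push_cast; linear_combination (-1 : ZMod p) * this
    rw [ZMod.natCast_eq_zero_iff] at h2
    exact hp2 ((Nat.prime_dvd_prime_iff_eq hp.out Nat.prime_two).mp h2)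
  set e : H := ⟨-1, hneg⟩ with he
  have he1 : e ≠ 1 := fun h => neg_ne (congrArg Subtype.val h)
  have hburn := MulAction.sum_card_fixedBy_eq_card_orbits_mul_card_group H (poles H)
  have hfix : ∀ g : H, Fintype.card (MulAction.fixedBy (poles H) g) =
      if g = 1 ∨ g = e then Fintype.card (poles H) else 2 := by
    intro g
    split_ifs with hg
    · have hall : ∀ P : poles H, g • P = P := by
        intro P
        rcases hg with rfl | rfl
        · exact one_smul _ _
        · exact Subtype.ext (neg_one_smul' P.1)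
      apply Fintype.card_congr
      exact (Equiv.subtypeUnivEquiv hall)
    · push Not at hg
      have hg1 : (g : SL(2, ZMod p)) ≠ 1 := fun h => hg.1 (Subtype.ext h)
      have hg2 : (g : SL(2, ZMod p)) ≠ -1 := fun h => hg.2 (Subtype.ext h)
      obtain ⟨P, Q, hPQ, hR⟩ := fix_eq_two hp2 (g : SL(2, ZMod p)) (trace_ne H hneg hcop g.2 hg1 hg2)
      have hP : (g : SL(2, ZMod p)) • P = P := (hR P).mpr (Or.inl rfl)
      have hQ : (g : SL(2, ZMod p)) • Q = Q := (hR Q).mpr (Or.inr rfl)
      have hPm : P ∈ poles H := ⟨g, g.2, hg1, hg2, hP⟩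
      have hQm : Q ∈ poles H := ⟨g, g.2, hg1, hg2, hQ⟩
      rw [← Nat.card_eq_fintype_card, Nat.card_eq_two_iff]
      refine ⟨⟨⟨P, hPm⟩, Subtype.ext hP⟩, ⟨⟨Q, hQm⟩, Subtype.ext hQ⟩, ?_, ?_⟩
      · intro h
        exact hPQ (congrArg (fun x => (x.1.1 : OnePoint (AlgebraicClosure (ZMod p)))) h)
      · rw [Set.eq_univ_iff_forall]
        rintro ⟨⟨R, hRm⟩, hRf⟩
        have hRf' : (g : SL(2, ZMod p)) • R = R := congrArg Subtype.val hRf
        rcases (hR R).mp hRf' with h | h
        · left; exact Subtype.ext (Subtype.ext h)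
        · right; exact Subtype.ext (Subtype.ext h)
  rw [Finset.sum_congr rfl (fun g _ => hfix g)] at hburn
  rw [Finset.sum_ite] at hburn
  have hf1 : (Finset.univ.filter (fun g : H => g = 1 ∨ g = e)) = {1, e} := by
    ext g; simp
  have hcard1 : (Finset.univ.filter (fun g : H => g = 1 ∨ g = e)).card = 2 := by
    rw [hf1]; exact Finset.card_pair he1.symm
  have hcard2 : (Finset.univ.filter (fun g : H => ¬ (g = 1 ∨ g = e))).card = m - 2 := by
    have := Finset.card_filter_add_card_filter_not (s := (Finset.univ : Finset H)) (fun g : H => g = 1 ∨ g = e)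
    rw [hcard1, Finset.card_univ] at this
    omega
  rw [Finset.sum_const, Finset.sum_const, hcard1, hcard2, smul_eq_mul, smul_eq_mul] at hburn
  -- orbits
  set Ω := MulAction.orbitRel.Quotient H (poles H) with hΩ
  have hburn2 : 2 * Fintype.card (poles H) + (m - 2) * 2 = Fintype.card Ω * m := by
    convert hburn
  clear hburn
  have hsumorb : Fintype.card (poles H) = ∑ ω : Ω, Fintype.card (MulAction.orbit H ω.out) := by
    rw [Fintype.card_congr (MulAction.selfEquivSigmaOrbits H (poles H)), Fintype.card_sigma]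
  have horb : ∀ ω : Ω, ∃ n : ℕ, 2 ≤ n ∧ 2 * (n * Fintype.card (MulAction.orbit H ω.out)) = m := by
    intro ω
    have h1 := MulAction.card_orbit_mul_card_stabilizer_eq_card_group H ω.out
    obtain ⟨h, hh, hh1, hh2, hh3⟩ := ω.out.2
    have hst : 2 ∣ Fintype.card (MulAction.stabilizer H ω.out) := by
      have hes : e ∈ MulAction.stabilizer H ω.out := Subtype.ext (neg_one_smul' _)
      have ho : orderOf (⟨e, hes⟩ : MulAction.stabilizer H ω.out) = 2 := by
        apply orderOf_eq_prime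
        · apply Subtype.ext; apply Subtype.ext
          change (-1 : SL(2, ZMod p)) ^ 2 = 1
          simp
        · intro h; exact he1 (congrArg Subtype.val h)
      have h5 := orderOf_dvd_natCard (⟨e, hes⟩ : MulAction.stabilizer H ω.out)
      rwa [ho, Nat.card_eq_fintype_card] at h5
    obtain ⟨n, hn⟩ := hst
    refine ⟨n, ?_, ?_⟩
    · have h3 : 2 < Fintype.card (MulAction.stabilizer H ω.out) := by
        rw [Fintype.two_lt_card_iff]
        refine ⟨1, ⟨e, Subtype.ext (neg_one_smul' _)⟩, ⟨⟨h, hh⟩, Subtype.ext hh3⟩, ?_, ?_, ?_⟩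
        · intro h'; exact he1 (congrArg Subtype.val h').symm
        · intro h'; exact hh1 (congrArg (fun x => x.1.1) h').symm
        · intro h'; exact hh2 (congrArg (fun x => x.1.1) h').symm
      omega
    · rw [hn] at h1
      have h1' : Fintype.card (MulAction.orbit H ω.out) * (2 * n) = m := h1
      rw [← h1']; ring
  have horb3 : ∀ ω : Ω, 3 ≤ Fintype.card (MulAction.orbit H ω.out) := by
    intro ω
    by_contra hlt
    push Not at hlt
    have hle : Fintype.card (MulAction.orbit H ω.out) ≤ 2 := by omega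
    set P := ω.out with hPdef
    have hex : ∃ Q : poles H, Q ∈ MulAction.orbit H P ∧ ∀ R ∈ MulAction.orbit H P, R = P ∨ R = Q := by
      by_cases hQ : ∃ Q ∈ MulAction.orbit H P, Q ≠ P
      · obtain ⟨Q, hQ, hne⟩ := hQ
        refine ⟨Q, hQ, fun R hR => ?_⟩
        by_contra hcon
        push Not at hcon
        have : 2 < Fintype.card (MulAction.orbit H P) := by
          rw [Fintype.two_lt_card_iff]
          refine ⟨⟨P, MulAction.mem_orbit_self P⟩, ⟨Q, hQ⟩, ⟨R, hR⟩, ?_, ?_, ?_⟩
          · intro h; exact hne (congrArg Subtype.val h).symm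
          · intro h; exact hcon.1 (congrArg Subtype.val h).symm
          · intro h; exact hcon.2 (congrArg Subtype.val h).symm
        omega
      · push Not at hQ
        exact ⟨P, MulAction.mem_orbit_self P, fun R hR => Or.inl (hQ R hR)⟩
    obtain ⟨Q, hQ, hPQ⟩ := hex
    obtain ⟨h, hh, hh'⟩ := hno P.1 Q.1
    have h1 := hPQ (⟨h, hh⟩ • P) (MulAction.mem_orbit _ _)
    have h2 := hPQ (⟨h, hh⟩ • Q) (MulAction.mem_orbit_of_mem_orbit _ hQ)
    have h1' : h • P.1 = P.1 ∨ h • P.1 = Q.1 := h1.imp (congrArg Subtype.val) (congrArg Subtype.val)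
    have h2' : h • Q.1 = P.1 ∨ h • Q.1 = Q.1 := h2.imp (congrArg Subtype.val) (congrArg Subtype.val)
    have := hh' h1'
    tauto
  have hub : 4 * Fintype.card (poles H) ≤ Fintype.card Ω * m := by
    rw [hsumorb, Finset.mul_sum]
    calc ∑ ω : Ω, 4 * Fintype.card (MulAction.orbit H ω.out) ≤ ∑ ω : Ω, m := by
          apply Finset.sum_le_sum
          intro ω _
          obtain ⟨n, hn, hn'⟩ := horb ω
          rw [← hn']
          nlinarith [Nat.mul_le_mul_right (Fintype.card (MulAction.orbit H ω.out)) hn]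
      _ = Fintype.card Ω * m := by rw [Finset.sum_const, Finset.card_univ, smul_eq_mul]
  have hlb : 3 * Fintype.card Ω ≤ Fintype.card (poles H) := by
    rw [hsumorb]
    calc 3 * Fintype.card Ω = ∑ ω : Ω, 3 := by rw [Finset.sum_const, Finset.card_univ, smul_eq_mul, mul_comm]
      _ ≤ _ := Finset.sum_le_sum (fun ω _ => horb3 ω)
  have hm120 : 120 < m := by rw [← hm]; exact hbig
  have hr : Fintype.card Ω < 4 := by
    by_contra hge
    push Not at hge
    have : 4 * m ≤ Fintype.card Ω * m := Nat.mul_le_mul_right _ hge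
    omega
  have hr3 : Fintype.card Ω = 3 := by
    interval_cases h : Fintype.card Ω
    · omega
    · omega
    · omega
    · rfl
  -- three orbits
  let eq := Fintype.equivFinOfCardEq hr3
  have hsum3 : Fintype.card (poles H) = Fintype.card (MulAction.orbit H (eq.symm 0).out) +
      Fintype.card (MulAction.orbit H (eq.symm 1).out) + Fintype.card (MulAction.orbit H (eq.symm 2).out) := by
    rw [hsumorb, ← Equiv.sum_comp eq.symm, Fin.sum_univ_three]
  obtain ⟨n0, hn0, hm0⟩ := horb (eq.symm 0)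
  obtain ⟨n1, hn1, hm1⟩ := horb (eq.symm 1)
  obtain ⟨n2, hn2, hm2⟩ := horb (eq.symm 2)
  have hs0 := horb3 (eq.symm 0)
  have hs1 := horb3 (eq.symm 1)
  have hs2 := horb3 (eq.symm 2)
  rw [hr3] at hburn2
  have := arith3 (N := m / 2) (n1 := n0) (n2 := n1) (n3 := n2) (by omega) (by omega) (by omega) hn0 hn1 hn2
    hs0 hs1 hs2 (by omega)
  omega


lemma sq_fix {x : SL(2, ZMod p)} (ht : x 0 0 + x 1 1 ≠ 0) {R : OnePoint (AlgebraicClosure (ZMod p))}
    (h : x • x • R = R) : x • R = R := by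
  rw [← mul_smul] at h
  induction R using OnePoint.rec with
  | infty =>
    rw [fix_inf] at h ⊢
    rw [mul_ij] at h
    have : x 1 0 * (x 0 0 + x 1 1) = 0 := by linear_combination h
    exact (mul_eq_zero.mp this).resolve_right ht
  | coe z =>
    rw [fix_coe] at h ⊢
    set f := algebraMap (ZMod p) (AlgebraicClosure (ZMod p)) with hf
    have finj : Function.Injective f := f.injective
    have hne : f (x 0 0 + x 1 1) ≠ 0 := fun h => ht ((map_eq_zero_iff f finj).mp h)
    simp only [mul_ij, map_add, map_sub, map_mul] at h hne ⊢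
    refine (mul_eq_zero.mp ?_).resolve_left hne
    linear_combination h

lemma swap_trace {x : SL(2, ZMod p)} {P Q : OnePoint (AlgebraicClosure (ZMod p))} (hPQ : P ≠ Q)
    (h1 : x • P = Q) (h2 : x • Q = P) : x 0 0 + x 1 1 = 0 := by
  by_contra ht
  have := sq_fix ht (R := P) (by rw [h1, h2])
  exact hPQ (this.symm.trans h1)

lemma bad_cases (hp2 : p ≠ 2) (x y : SL(2, ZMod p)) (h : Subgroup.closure {x, y, -1} ≠ ⊤) :
    (x ^ (Nat.factorial 120) = 1 ∨ x 0 0 + x 1 1 = 0) ∨ y 0 0 + y 1 1 = 0 ∨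
      ∃ P : OnePoint (AlgebraicClosure (ZMod p)), x • P = P ∧ y • P = P := by
  set H := Subgroup.closure {x, y, (-1 : SL(2, ZMod p))} with hH
  have hx : x ∈ H := Subgroup.subset_closure (by simp)
  have hy : y ∈ H := Subgroup.subset_closure (by simp)
  have hneg : -1 ∈ H := Subgroup.subset_closure (by simp)
  by_cases hcard : p ∣ Nat.card H
  · rcases top_or_borel H hcard with h' | ⟨g, hg⟩
    · exact absurd h' h
    · right; right
      have key : ∀ k ∈ H, k • (g • (OnePoint.infty : OnePoint (AlgebraicClosure (ZMod p)))) = g • OnePoint.infty := by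
        intro k hk
        have h1 := (fix_inf (g⁻¹ * k * g)).mpr (hg k hk)
        have h2 : g • (g⁻¹ * k * g) • (OnePoint.infty : OnePoint (AlgebraicClosure (ZMod p))) = g • OnePoint.infty := by rw [h1]
        rw [← mul_smul] at h2
        rw [← mul_smul]
        rw [← h2]; congr 1; group
      exact ⟨_, key x hx, key y hy⟩
  · rcases small_or_pair hp2 H hneg hcard with h' | ⟨P, Q, hPQ⟩
    · left; left
      have h1 : orderOf (⟨x, hx⟩ : H) ∣ Nat.factorial 120 := by
        refine (orderOf_dvd_natCard _).trans ?_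
        exact Nat.dvd_factorial (Nat.card_pos) h'
      have h2 := orderOf_dvd_iff_pow_eq_one.mp h1
      have h3 := congrArg (fun u : H => (u : SL(2, ZMod p))) h2
      simpa using h3
    · have aux : ∀ k ∈ H, k • P = P ∨ k 0 0 + k 1 1 = 0 := by
        intro k hk
        obtain ⟨h1, h2⟩ := hPQ k hk
        by_cases hkP : k • P = P
        · exact Or.inl hkP
        · right
          have h1' := h1.resolve_left hkP
          have hne : P ≠ Q := fun h => hkP (by rw [h1', h])
          rcases h2 with h2 | h2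
          · exact swap_trace hne h1' h2
          · exfalso
            have : P = Q := smul_left_cancel k (by rw [h1', h2])
            exact hne this
      rcases aux x hx with h1 | h1
      · rcases aux y hy with h2 | h2
        · exact Or.inr (Or.inr ⟨P, h1, h2⟩)
        · exact Or.inr (Or.inl h2)
      · exact Or.inl (Or.inr h1)

/-! counting -/

lemma card_SL : Nat.card SL(2, ZMod p) = (p - 1) * p ^ 2 + (p - 1) * p := by
  let f : ((ZMod p)ˣ × ZMod p × ZMod p) ⊕ ((ZMod p)ˣ × ZMod p) → SL(2, ZMod p) := fun u =>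
    match u with
    | Sum.inl (a, b, c) => mk2 (a : ZMod p) b c ((a : ZMod p)⁻¹ * (1 + b * c)) (by
        rw [← mul_assoc, mul_inv_cancel₀ a.ne_zero]; ring)
    | Sum.inr (b, d) => mk2 0 (b : ZMod p) (-(b : ZMod p)⁻¹) d (by
        rw [zero_mul, mul_neg, mul_inv_cancel₀ b.ne_zero]; ring)
  have hf : Function.Bijective f := by
    constructor
    · rintro (⟨a, b, c⟩ | ⟨b, d⟩) (⟨a', b', c'⟩ | ⟨b', d'⟩) h
      · have h0 := congrArg (fun g : SL(2, ZMod p) => g 0 0) h
        have h1 := congrArg (fun g : SL(2, ZMod p) => g 0 1) h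
        have h2 := congrArg (fun g : SL(2, ZMod p) => g 1 0) h
        simp only [f, mk2_00, mk2_01, mk2_10] at h0 h1 h2
        rw [Units.ext h0, h1, h2]
      · have h0 := congrArg (fun g : SL(2, ZMod p) => g 0 0) h
        simp only [f, mk2_00] at h0
        exact absurd h0 a.ne_zero
      · have h0 := congrArg (fun g : SL(2, ZMod p) => g 0 0) h
        simp only [f, mk2_00] at h0
        exact absurd h0.symm a'.ne_zero
      · have h0 := congrArg (fun g : SL(2, ZMod p) => g 0 1) h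
        have h1 := congrArg (fun g : SL(2, ZMod p) => g 1 1) h
        simp only [f, mk2_01, mk2_11] at h0 h1
        rw [Units.ext h0, h1]
    · intro g
      have hdet := det_eq g
      by_cases ha : g 0 0 = 0
      · have hb : g 0 1 ≠ 0 := by
          intro hb; rw [ha, hb] at hdet; simp at hdet
        refine ⟨Sum.inr (Units.mk0 _ hb, g 1 1), ?_⟩
        apply ext4 <;> simp only [f, mk2_00, mk2_01, mk2_10, mk2_11, Units.val_mk0]
        · exact ha.symm
        · rw [ha] at hdet
          field_simp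
          linear_combination hdet
      · refine ⟨Sum.inl (Units.mk0 _ ha, g 0 1, g 1 0), ?_⟩
        apply ext4 <;> simp only [f, mk2_00, mk2_01, mk2_10, mk2_11, Units.val_mk0]
        field_simp
        linear_combination (-1 : ZMod p) * hdet
  rw [← Nat.card_congr (Equiv.ofBijective f hf), Nat.card_sum, Nat.card_prod, Nat.card_prod,
    Nat.card_prod, Nat.card_zmod, Nat.card_eq_fintype_card (α := (ZMod p)ˣ), ZMod.card_units]
  ring

lemma card_trace_le (t : ZMod p) : Nat.card {g : SL(2, ZMod p) // g 0 0 + g 1 1 = t} ≤ 2 * p ^ 2 := by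
  classical
  let f : {g : SL(2, ZMod p) // g 0 0 + g 1 1 = t} → (ZMod p × ZMod p) ⊕ (ZMod p × ZMod p) := fun g =>
    if g.1 0 1 = 0 then Sum.inl (g.1 0 0, g.1 1 0) else Sum.inr (g.1 0 0, g.1 0 1)
  have hf : Function.Injective f := by
    rintro ⟨g, hg⟩ ⟨g', hg'⟩ h
    have hdet := det_eq g
    have hdet' := det_eq g'
    apply Subtype.ext
    simp only [f] at h
    by_cases hb : g 0 1 = 0 <;> by_cases hb' : g' 0 1 = 0
    · rw [if_pos hb, if_pos hb'] at h
      obtain ⟨h0, h1⟩ := Prod.mk.inj (Sum.inl.inj h)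
      refine ext4 h0 (by rw [hb, hb']) h1 ?_
      linear_combination hg - hg' - h0
    · rw [if_pos hb, if_neg hb'] at h; exact absurd h (by simp)
    · rw [if_neg hb, if_pos hb'] at h; exact absurd h (by simp)
    · rw [if_neg hb, if_neg hb'] at h
      obtain ⟨h0, h1⟩ := Prod.mk.inj (Sum.inr.inj h)
      have h2 : g 1 1 = g' 1 1 := by linear_combination hg - hg' - h0
      refine ext4 h0 h1 ?_ h2
      have : g 0 1 * (g 1 0 - g' 1 0) = 0 := by
        rw [← h0, ← h1, ← h2] at hdet'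
        linear_combination hdet' - hdet
      have := (mul_eq_zero.mp this).resolve_left hb
      linear_combination this
  calc Nat.card {g : SL(2, ZMod p) // g 0 0 + g 1 1 = t} ≤ Nat.card ((ZMod p × ZMod p) ⊕ (ZMod p × ZMod p)) :=
        Nat.card_le_card_of_injective f hf
    _ = 2 * p ^ 2 := by
      rw [Nat.card_sum, Nat.card_prod, Nat.card_zmod]; ring

lemma card_trace_zero_ge : (p - 1) * p ≤ Nat.card {g : SL(2, ZMod p) // g 0 0 + g 1 1 = 0} := by
  let f : (ZMod p)ˣ × ZMod p → {g : SL(2, ZMod p) // g 0 0 + g 1 1 = 0} := fun u =>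
    ⟨mk2 u.2 (u.1 : ZMod p) (-(u.1 : ZMod p)⁻¹ * (1 + u.2 ^ 2)) (-u.2) (by
      have := u.1.ne_zero
      field_simp; ring), by simp only [mk2_00, mk2_11]; ring⟩
  have hf : Function.Injective f := by
    rintro ⟨b, a⟩ ⟨b', a'⟩ h
    have h0 := congrArg (fun g : {g : SL(2, ZMod p) // g 0 0 + g 1 1 = 0} => g.1 0 0) h
    have h1 := congrArg (fun g : {g : SL(2, ZMod p) // g 0 0 + g 1 1 = 0} => g.1 0 1) h
    simp only [f, mk2_00, mk2_01] at h0 h1
    rw [h0, Units.ext h1]
  calc (p - 1) * p = Nat.card ((ZMod p)ˣ × ZMod p) := by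
        rw [Nat.card_prod, Nat.card_zmod, Nat.card_eq_fintype_card (α := (ZMod p)ˣ), ZMod.card_units]
    _ ≤ _ := Nat.card_le_card_of_injective f hf

lemma card_stab_le (P : OnePoint (AlgebraicClosure (ZMod p))) :
    Nat.card {g : SL(2, ZMod p) // g • P = P} ≤ p ^ 2 := by
  have hcard : Nat.card (ZMod p × ZMod p) = p ^ 2 := by
    rw [Nat.card_prod, Nat.card_zmod]; ring
  rw [← hcard]
  induction P using OnePoint.rec with
  | infty =>
    refine Nat.card_le_card_of_injective (fun g => (g.1 0 0, g.1 0 1)) ?_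
    rintro ⟨g, hg⟩ ⟨g', hg'⟩ h
    rw [fix_inf] at hg hg'
    obtain ⟨h0, h1⟩ := Prod.mk.inj h
    simp only at h0 h1
    have hdet := det_eq g
    have hdet' := det_eq g'
    apply Subtype.ext
    refine ext4 h0 h1 (by rw [hg, hg']) ?_
    rw [hg] at hdet; rw [hg', ← h0] at hdet'
    have hne : g 0 0 ≠ 0 := by intro h; rw [h] at hdet; simp at hdet
    have : g 0 0 * (g 1 1 - g' 1 1) = 0 := by linear_combination hdet - hdet'
    have := (mul_eq_zero.mp this).resolve_left hne
    linear_combination this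
  | coe z =>
    refine Nat.card_le_card_of_injective (fun g => (g.1 1 0, g.1 1 1)) ?_
    rintro ⟨g, hg⟩ ⟨g', hg'⟩ h
    rw [fix_coe] at hg hg'
    obtain ⟨h0, h1⟩ := Prod.mk.inj h
    simp only at h0 h1
    have hdet := det_eq g
    have hdet' := det_eq g'
    set f := algebraMap (ZMod p) (AlgebraicClosure (ZMod p)) with hf
    have finj : Function.Injective f := f.injective
    have fd := congrArg f hdet
    have fd' := congrArg f hdet'
    rw [← h0, ← h1] at hg' fd'
    simp only [map_sub, map_mul, map_one] at fd fd' hg hg'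
    have hlam : f (g 1 0) * z + f (g 1 1) ≠ 0 := by
      intro hl
      have h2 : f (g 0 0) * z + f (g 0 1) = 0 := by linear_combination z * hl - hg
      have h3 : (1 : AlgebraicClosure (ZMod p)) = 0 := by
        linear_combination - fd + f (g 0 0) * hl - f (g 1 0) * h2
      exact one_ne_zero h3
    have ha : f (g 0 0) - f (g' 0 0) = 0 := by
      refine (mul_eq_zero.mp ?_).resolve_left hlam
      linear_combination f (g 1 0) * (hg' - hg) + fd - fd'
    have hb : f (g 0 1) - f (g' 0 1) = 0 := by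
      linear_combination - hg + hg' - z * ha
    apply Subtype.ext
    refine ext4 (finj (sub_eq_zero.mp ha)) (finj (sub_eq_zero.mp hb)) h0 h1


lemma trace_of_pow {M : ℕ} (x : SL(2, ZMod p)) (hx : x ^ M = 1) :
    ∃ l : AlgebraicClosure (ZMod p), l ^ M = 1 ∧
      algebraMap (ZMod p) (AlgebraicClosure (ZMod p)) (x 0 0 + x 1 1) = l + l⁻¹ := by
  set f := algebraMap (ZMod p) (AlgebraicClosure (ZMod p)) with hf
  set t := f (x 0 0 + x 1 1) with ht
  have hdet := congrArg f (det_eq x)
  simp only [map_sub, map_mul, map_one] at hdet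
  -- root of l^2 - t l + 1
  obtain ⟨s, hs⟩ := IsAlgClosed.exists_root (Polynomial.X ^ 2 - Polynomial.C t * Polynomial.X + 1 : Polynomial (AlgebraicClosure (ZMod p))) (by
    have : (Polynomial.X ^ 2 - Polynomial.C t * Polynomial.X + 1 : Polynomial (AlgebraicClosure (ZMod p))).degree = 2 := by
      compute_degree!
    rw [this]; norm_num)
  have hroot : s ^ 2 - t * s + 1 = 0 := by
    simpa [Polynomial.IsRoot.def] using hs
  have hs0 : s ≠ 0 := by
    intro h; rw [h] at hroot; simp at hroot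
  refine ⟨s, ?_, ?_⟩
  · -- matrix argument
    let A : Matrix (Fin 2) (Fin 2) (AlgebraicClosure (ZMod p)) := (x : Matrix (Fin 2) (Fin 2) (ZMod p)).map f
    have hA : A ^ M = 1 := by
      have h1 : (x : Matrix (Fin 2) (Fin 2) (ZMod p)) ^ M = 1 := congrArg Subtype.val hx
      have h2 : A ^ M = ((x : Matrix (Fin 2) (Fin 2) (ZMod p)) ^ M).map f := by
        exact (map_pow f.mapMatrix (x : Matrix (Fin 2) (Fin 2) (ZMod p)) M).symm
      rw [h2, h1]
      exact map_one f.mapMatrix
    have hcomm : Commute A (s • (1 : Matrix (Fin 2) (Fin 2) (AlgebraicClosure (ZMod p)))) :=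
      (Commute.one_right A).smul_right s
    have hdvd := hcomm.sub_dvd_pow_sub_pow M
    obtain ⟨B, hB⟩ := hdvd
    have hdetA : (A - s • (1 : Matrix (Fin 2) (Fin 2) (AlgebraicClosure (ZMod p)))).det = 0 := by
      rw [det_fin_two]
      simp only [Matrix.sub_apply, Matrix.smul_apply, Matrix.one_apply, smul_eq_mul]
      have e00 : A 0 0 = f (x 0 0) := rfl
      have e01 : A 0 1 = f (x 0 1) := rfl
      have e10 : A 1 0 = f (x 1 0) := rfl
      have e11 : A 1 1 = f (x 1 1) := rfl
      rw [e00, e01, e10, e11]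
      rw [ht, map_add] at hroot
      simp
      linear_combination hdet + hroot
    have h3 := congrArg Matrix.det hB
    rw [hA, det_mul, hdetA, zero_mul, smul_pow, one_pow] at h3
    have h4 : (1 : Matrix (Fin 2) (Fin 2) (AlgebraicClosure (ZMod p))) - s ^ M • 1 = (1 - s ^ M) • 1 := by
      rw [sub_smul, one_smul]
    rw [h4, det_smul, det_one, mul_one, Fintype.card_fin] at h3
    have h5 := pow_eq_zero_iff (two_ne_zero) |>.mp h3
    linear_combination (-1 : AlgebraicClosure (ZMod p)) * h5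
  · field_simp
    linear_combination -hroot

lemma card_pow_le {M : ℕ} (hM : 0 < M) :
    Nat.card {x : SL(2, ZMod p) // x ^ M = 1} ≤ 2 * p ^ 2 * M := by
  classical
  have : Fintype SL(2, ZMod p) := Fintype.ofFinite _
  set f := algebraMap (ZMod p) (AlgebraicClosure (ZMod p)) with hf
  set T : Finset (ZMod p) := Finset.univ.filter (fun t => ∃ l : AlgebraicClosure (ZMod p), l ^ M = 1 ∧ f t = l + l⁻¹) with hT
  have hTcard : T.card ≤ M := by
    have hch : ∀ t : ZMod p, t ∈ T → ∃ l : AlgebraicClosure (ZMod p), l ^ M = 1 ∧ f t = l + l⁻¹ := by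
      intro t ht; exact (Finset.mem_filter.mp ht).2
    choose! l hl using hch
    have hmaps : ∀ t ∈ T, l t ∈ (Polynomial.nthRootsFinset M (1 : AlgebraicClosure (ZMod p))) := by
      intro t ht
      rw [Polynomial.mem_nthRootsFinset hM]
      exact (hl t ht).1
    have hinj : Set.InjOn l T := by
      intro t ht t' ht' h
      apply f.injective
      rw [(hl t ht).2, (hl t' ht').2, h]
    calc T.card ≤ (Polynomial.nthRootsFinset M (1 : AlgebraicClosure (ZMod p))).card :=
          Finset.card_le_card_of_injOn l hmaps hinj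
      _ ≤ M := by
          rw [Polynomial.nthRootsFinset]
          exact (Multiset.toFinset_card_le _).trans (Polynomial.card_nthRoots M 1)
  have h1 : Nat.card {x : SL(2, ZMod p) // x ^ M = 1} = (Finset.univ.filter (fun x : SL(2, ZMod p) => x ^ M = 1)).card := by
    rw [Nat.card_eq_fintype_card, Fintype.card_subtype]
  rw [h1]
  refine (Finset.card_le_mul_card_image_of_maps_to (f := fun x : SL(2, ZMod p) => x 0 0 + x 1 1) (t := T) ?_ (2 * p ^ 2) ?_).trans ?_
  · intro x hx
    rw [hT, Finset.mem_filter]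
    exact ⟨Finset.mem_univ _, trace_of_pow x (Finset.mem_filter.mp hx).2⟩
  · intro t _
    refine le_trans ?_ (card_trace_le t)
    rw [Nat.card_eq_fintype_card, Fintype.card_subtype]
    apply Finset.card_le_card
    intro x hx
    rw [Finset.mem_filter] at hx ⊢
    exact ⟨Finset.mem_univ _, hx.2⟩
  · exact Nat.mul_le_mul_left _ hTcard

/-- the number of pairs which together with -1 do not generate -/
theorem card_bad (hp2 : p ≠ 2) :
    Nat.card {z : SL(2, ZMod p) × SL(2, ZMod p) // Subgroup.closure {z.1, z.2, -1} ≠ ⊤} ≤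
      (2 * Nat.factorial 120 + 6) * p ^ 2 * Nat.card SL(2, ZMod p) := by
  classical
  have : Fintype SL(2, ZMod p) := Fintype.ofFinite _
  set M := Nat.factorial 120 with hM
  have hMpos : 0 < M := Nat.factorial_pos _
  set G := SL(2, ZMod p) with hG
  set A : Finset G := Finset.univ.filter (fun x => x ^ M = 1 ∨ x 0 0 + x 1 1 = 0) with hA
  have hAcard : A.card ≤ 2 * p ^ 2 * M + 2 * p ^ 2 := by
    rw [hA, Finset.filter_or]
    refine (Finset.card_union_le _ _).trans (add_le_add ?_ ?_)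
    · have := card_pow_le (p := p) hMpos
      rwa [Nat.card_eq_fintype_card, Fintype.card_subtype] at this
    · have := card_trace_le (p := p) 0
      rwa [Nat.card_eq_fintype_card, Fintype.card_subtype] at this
  have hrow : ∀ x : G, (Finset.univ.filter (fun y : G => Subgroup.closure {x, y, -1} ≠ ⊤)).card ≤
      if x ∈ A then Nat.card G else 4 * p ^ 2 := by
    intro x
    split_ifs with hx
    · refine (Finset.card_filter_le _ _).trans ?_
      rw [Finset.card_univ, Nat.card_eq_fintype_card]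
    · have hx' : ¬ (x ^ M = 1 ∨ x 0 0 + x 1 1 = 0) := by
        intro h; exact hx (Finset.mem_filter.mpr ⟨Finset.mem_univ _, h⟩)
      have hx1 : x ≠ 1 := by rintro rfl; exact hx' (Or.inl (one_pow _))
      have hx2 : x ≠ -1 := by
        rintro rfl; apply hx'; left
        have : Even M := even_iff_two_dvd.mpr (Nat.dvd_factorial (by norm_num) (by norm_num))
        exact this.neg_one_pow
      obtain ⟨P, Q, hPQ⟩ := fix_le_two x hx1 hx2
      have hsub : (Finset.univ.filter (fun y : G => Subgroup.closure {x, y, -1} ≠ ⊤)) ⊆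
          (Finset.univ.filter (fun y : G => y 0 0 + y 1 1 = 0)) ∪
          ((Finset.univ.filter (fun y : G => y • P = P)) ∪ (Finset.univ.filter (fun y : G => y • Q = Q))) := by
        intro y hy
        rw [Finset.mem_filter] at hy
        rcases bad_cases hp2 x y hy.2 with h | h | ⟨R, hR1, hR2⟩
        · exact absurd h hx'
        · exact Finset.mem_union_left _ (Finset.mem_filter.mpr ⟨Finset.mem_univ _, h⟩)
        · apply Finset.mem_union_right
          rcases hPQ R hR1 with h | h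
          · rw [h] at hR2; exact Finset.mem_union_left _ (Finset.mem_filter.mpr ⟨Finset.mem_univ _, hR2⟩)
          · rw [h] at hR2; exact Finset.mem_union_right _ (Finset.mem_filter.mpr ⟨Finset.mem_univ _, hR2⟩)
      refine (Finset.card_le_card hsub).trans ?_
      refine (Finset.card_union_le _ _).trans ?_
      have e1 := card_trace_le (p := p) 0
      rw [Nat.card_eq_fintype_card, Fintype.card_subtype] at e1
      have e2 := card_stab_le (p := p) P
      rw [Nat.card_eq_fintype_card, Fintype.card_subtype] at e2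
      have e3 := card_stab_le (p := p) Q
      rw [Nat.card_eq_fintype_card, Fintype.card_subtype] at e3
      have e4 := Finset.card_union_le (Finset.univ.filter (fun y : G => y • P = P)) (Finset.univ.filter (fun y : G => y • Q = Q))
      calc _ ≤ 2 * p ^ 2 + (p ^ 2 + p ^ 2) := add_le_add e1 (e4.trans (add_le_add e2 e3))
        _ = 4 * p ^ 2 := by ring
  have hcount : Nat.card {z : G × G // Subgroup.closure {z.1, z.2, -1} ≠ ⊤} =
      ∑ x : G, (Finset.univ.filter (fun y : G => Subgroup.closure {x, y, -1} ≠ ⊤)).card := by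
    rw [Nat.card_eq_fintype_card, Fintype.card_subtype, Finset.card_filter]
    rw [← Finset.univ_product_univ, Finset.sum_product]
    apply Finset.sum_congr rfl
    intro x _
    rw [Finset.card_filter]
  rw [hcount]
  calc ∑ x : G, (Finset.univ.filter (fun y : G => Subgroup.closure {x, y, -1} ≠ ⊤)).card
      ≤ ∑ x : G, (if x ∈ A then Nat.card G else 4 * p ^ 2) := Finset.sum_le_sum (fun x _ => hrow x)
    _ ≤ ∑ x : G, ((if x ∈ A then Nat.card G else 0) + 4 * p ^ 2) := by
        apply Finset.sum_le_sum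
        intro x _
        split_ifs <;> omega
    _ = A.card * Nat.card G + Nat.card G * (4 * p ^ 2) := by
        rw [Finset.sum_add_distrib, Finset.sum_const, Finset.card_univ, smul_eq_mul,
          ← Finset.sum_filter, Finset.sum_const, smul_eq_mul, Finset.filter_mem_eq_inter,
          Finset.univ_inter, Nat.card_eq_fintype_card]
    _ ≤ (2 * p ^ 2 * M + 2 * p ^ 2) * Nat.card G + Nat.card G * (4 * p ^ 2) := by
        gcongr
    _ = _ := by ring


/-! quotient counting -/

noncomputable def splitEquiv {G : Type*} [Group G] (N : Subgroup G) : G ≃ (G ⧸ N) × N where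
  toFun g := (QuotientGroup.mk g, ⟨(QuotientGroup.mk g : G ⧸ N).out⁻¹ * g, by
    rw [← QuotientGroup.eq, QuotientGroup.out_eq']⟩)
  invFun u := u.1.out * u.2
  left_inv g := by simp
  right_inv u := by
    obtain ⟨q, n⟩ := u
    have h : (QuotientGroup.mk (q.out * (n : G)) : G ⧸ N) = q := by
      rw [QuotientGroup.mk_mul_of_mem _ n.2, QuotientGroup.out_eq']
    refine Prod.ext h (Subtype.ext ?_)
    simp only
    rw [h]; group

lemma card_pre {G : Type*} [Group G] [Finite G] (N : Subgroup G) (P : G ⧸ N → Prop) :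
    Nat.card {g : G // P (QuotientGroup.mk g)} = Nat.card {q : G ⧸ N // P q} * Nat.card N := by
  rw [← Nat.card_prod]
  apply Nat.card_congr
  exact ((splitEquiv N).subtypeEquiv (q := fun u => P u.1) (fun g => Iff.rfl)).trans
    (Equiv.prodSubtypeFstEquivSubtypeProd (p := P))

lemma card_pre2 {G : Type*} [Group G] [Finite G] (N : Subgroup G) (P : (G ⧸ N) × (G ⧸ N) → Prop) :
    Nat.card {z : G × G // P (QuotientGroup.mk z.1, QuotientGroup.mk z.2)} =
      Nat.card {z : (G ⧸ N) × (G ⧸ N) // P z} * (Nat.card N * Nat.card N) := by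
  rw [← Nat.card_prod, ← Nat.card_prod]
  apply Nat.card_congr
  exact ((((splitEquiv N).prodCongr (splitEquiv N)).trans (Equiv.prodProdProdComm _ _ _ _)).subtypeEquiv
    (q := fun u => P u.1) (fun g => Iff.rfl)).trans
    (Equiv.prodSubtypeFstEquivSubtypeProd (p := P))

lemma neg_one_ne_one (hp2 : p ≠ 2) : (-1 : SL(2, ZMod p)) ≠ 1 := by
  intro h
  have : (-1 : SL(2, ZMod p)) 0 0 = (1 : SL(2, ZMod p)) 0 0 := by rw [h]
  rw [neg_ij, one_00] at this
  have h2 : ((2 : ℕ) : ZMod p) = 0 := by push_cast; linear_combination (-1 : ZMod p) * this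
  rw [ZMod.natCast_eq_zero_iff] at h2
  exact hp2 ((Nat.prime_dvd_prime_iff_eq hp.out Nat.prime_two).mp h2)

lemma mem_center (x : SL(2, ZMod p)) : x ∈ Subgroup.center SL(2, ZMod p) ↔ x = 1 ∨ x = -1 := by
  constructor
  · intro h
    rw [Matrix.SpecialLinearGroup.mem_center_iff] at h
    obtain ⟨r, hr, hx⟩ := h
    have h00 : r = x 0 0 := congrFun (congrFun hx 0) 0
    have h01 : (0 : ZMod p) = x 0 1 := congrFun (congrFun hx 0) 1
    have h10 : (0 : ZMod p) = x 1 0 := congrFun (congrFun hx 1) 0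
    have h11 : r = x 1 1 := congrFun (congrFun hx 1) 1
    have hdet := det_eq x
    rw [← h00, ← h01, ← h11] at hdet
    have : (r - 1) * (r + 1) = 0 := by linear_combination hdet
    rcases mul_eq_zero.mp this with h | h
    · left
      have hr1 : r = 1 := by linear_combination h
      apply ext4
      · rw [← h00, one_00, hr1]
      · rw [← h01, one_01]
      · rw [← h10, one_10]
      · rw [← h11, one_11, hr1]
    · right
      have hr1 : r = -1 := by linear_combination h
      apply ext4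
      · rw [← h00, neg_ij, one_00, hr1]
      · rw [← h01, neg_ij, one_01, neg_zero]
      · rw [← h10, neg_ij, one_10, neg_zero]
      · rw [← h11, neg_ij, one_11, hr1]
  · rintro (rfl | rfl)
    · exact Subgroup.one_mem _
    · rw [Subgroup.mem_center_iff]; intro g; simp

lemma card_center (hp2 : p ≠ 2) : Nat.card (Subgroup.center SL(2, ZMod p)) = 2 := by
  rw [Nat.card_eq_two_iff]
  refine ⟨⟨1, (mem_center _).mpr (Or.inl rfl)⟩, ⟨-1, (mem_center _).mpr (Or.inr rfl)⟩, ?_, ?_⟩
  · intro h; exact neg_one_ne_one hp2 (congrArg Subtype.val h).symm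
  · rw [Set.eq_univ_iff_forall]
    rintro ⟨x, hx⟩
    rcases (mem_center x).mp hx with h | h
    · left; exact Subtype.ext h
    · right; exact Subtype.ext h

abbrev Q (p : ℕ) : Type := Matrix.ProjectiveSpecialLinearGroup (Fin 2) (ZMod p)

lemma card_Q (hp2 : p ≠ 2) : Nat.card (Q p) * 2 = (p - 1) * p ^ 2 + (p - 1) * p := by
  have h := Subgroup.card_eq_card_quotient_mul_card_subgroup (Subgroup.center SL(2, ZMod p))
  rw [card_center hp2, card_SL] at h
  exact h.symm

/-- number of non-generating pairs in PSL2 -/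
lemma card_badQ (hp2 : p ≠ 2) :
    Nat.card {z : Q p × Q p // Subgroup.closure {z.1, z.2} ≠ ⊤} * 4 ≤
      (2 * Nat.factorial 120 + 6) * p ^ 2 * Nat.card SL(2, ZMod p) := by
  have h1 := card_pre2 (Subgroup.center SL(2, ZMod p)) (fun z : Q p × Q p => Subgroup.closure {z.1, z.2} ≠ ⊤)
  rw [card_center hp2] at h1
  have h2 : Nat.card {z : SL(2, ZMod p) × SL(2, ZMod p) // Subgroup.closure
      {(QuotientGroup.mk z.1 : Q p), (QuotientGroup.mk z.2 : Q p)} ≠ ⊤} ≤
      Nat.card {z : SL(2, ZMod p) × SL(2, ZMod p) // Subgroup.closure {z.1, z.2, -1} ≠ ⊤} := by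
    have himp : ∀ z : SL(2, ZMod p) × SL(2, ZMod p), Subgroup.closure
      {(QuotientGroup.mk z.1 : Q p), (QuotientGroup.mk z.2 : Q p)} ≠ ⊤ →
      Subgroup.closure {z.1, z.2, -1} ≠ ⊤ := by
      intro z hz htop
      apply hz
      have h3 := MonoidHom.map_closure (QuotientGroup.mk' (Subgroup.center SL(2, ZMod p))) {z.1, z.2, -1}
      rw [htop, Subgroup.map_top_of_surjective _ (QuotientGroup.mk'_surjective _)] at h3
      rw [eq_top_iff, h3, Subgroup.closure_le]
      rintro _ ⟨w, hw, rfl⟩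
      simp only [Set.mem_insert_iff, Set.mem_singleton_iff] at hw
      rcases hw with rfl | rfl | rfl
      · exact Subgroup.subset_closure (by simp)
      · exact Subgroup.subset_closure (by simp)
      · have : (QuotientGroup.mk' (Subgroup.center SL(2, ZMod p))) (-1) = 1 := by
          rw [QuotientGroup.mk'_apply, QuotientGroup.eq_one_iff]
          exact (mem_center _).mpr (Or.inr rfl)
        rw [this]
        exact Subgroup.one_mem _
    refine Nat.card_le_card_of_injective (Subtype.map id himp) ?_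
    intro a b h
    have h' := congrArg (fun u => u.1) h
    exact Subtype.ext h'
  have h3 := card_bad (p := p) hp2
  calc _ = Nat.card {z : SL(2, ZMod p) × SL(2, ZMod p) // Subgroup.closure
      {(QuotientGroup.mk z.1 : Q p), (QuotientGroup.mk z.2 : Q p)} ≠ ⊤} := h1.symm
    _ ≤ _ := h2.trans h3

/-- squares of trace zero elements are -1 -/
lemma sq_of_trace_zero (x : SL(2, ZMod p)) (h : x 0 0 + x 1 1 = 0) : x ^ 2 = -1 := by
  have hdet := det_eq x
  have hd : x 1 1 = - x 0 0 := by linear_combination h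
  rw [hd] at hdet
  rw [pow_two]
  apply ext4
  · rw [mul_ij, neg_ij, one_00]; linear_combination - hdet
  · rw [mul_ij, neg_ij, one_01, hd]; ring
  · rw [mul_ij, neg_ij, one_10, hd]; ring
  · rw [mul_ij, neg_ij, one_11, hd]; linear_combination - hdet

lemma fourth_cases (x : SL(2, ZMod p)) (h : x ^ 4 = 1 ∨ x ^ 4 = -1) :
    x = 1 ∨ x = -1 ∨ x 0 0 + x 1 1 = 0 ∨ (x 0 0 + x 1 1) ^ 2 = 2 := by
  by_cases hs : x = 1 ∨ x = -1
  · tauto
  push Not at hs
  set t := x 0 0 + x 1 1 with ht
  have hdet := det_eq x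
  -- off-diagonal entries of x^2 and x^4
  have e10 : (x ^ 4) 1 0 = x 1 0 * (t * (t ^ 2 - 2)) := by
    rw [show (4 : ℕ) = 2 + 2 from rfl, pow_add, pow_two, ht]; simp only [mul_ij]
    linear_combination (- 2 * x 1 0 * (x 0 0 + x 1 1)) * hdet
  have e01 : (x ^ 4) 0 1 = x 0 1 * (t * (t ^ 2 - 2)) := by
    rw [show (4 : ℕ) = 2 + 2 from rfl, pow_add, pow_two, ht]; simp only [mul_ij]
    linear_combination (- 2 * x 0 1 * (x 0 0 + x 1 1)) * hdet
  have ed : (x ^ 4) 0 0 - (x ^ 4) 1 1 = (x 0 0 - x 1 1) * (t * (t ^ 2 - 2)) := by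
    rw [show (4 : ℕ) = 2 + 2 from rfl, pow_add, pow_two, ht]; simp only [mul_ij]
    linear_combination (- 2 * (x 0 0 - x 1 1) * (x 0 0 + x 1 1)) * hdet
  have h10 : (x ^ 4) 1 0 = 0 := by
    rcases h with h | h <;> rw [h]
    · rfl
    · rw [neg_ij, one_10, neg_zero]
  have h01 : (x ^ 4) 0 1 = 0 := by
    rcases h with h | h <;> rw [h]
    · rfl
    · rw [neg_ij, one_01, neg_zero]
  have hd : (x ^ 4) 0 0 - (x ^ 4) 1 1 = 0 := by
    rcases h with h | h <;> rw [h]
    · rw [one_00, one_11, sub_self]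
    · rw [neg_ij, neg_ij, one_00, one_11, sub_self]
  rw [h10] at e10; rw [h01] at e01; rw [hd] at ed
  by_cases hz : t * (t ^ 2 - 2) = 0
  · rcases mul_eq_zero.mp hz with h' | h'
    · right; right; left; exact h'
    · right; right; right; linear_combination h'
  · exfalso
    have c0 := (mul_eq_zero.mp e10.symm).resolve_right hz
    have b0 := (mul_eq_zero.mp e01.symm).resolve_right hz
    have d0 := (mul_eq_zero.mp ed.symm).resolve_right hz
    have hd' : x 1 1 = x 0 0 := by linear_combination - d0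
    rw [b0, hd'] at hdet
    have : (x 0 0 - 1) * (x 0 0 + 1) = 0 := by linear_combination hdet
    rcases mul_eq_zero.mp this with h' | h'
    · apply hs.1
      have ha : x 0 0 = 1 := by linear_combination h'
      apply ext4
      · rw [one_00, ha]
      · rw [one_01, b0]
      · rw [one_10, c0]
      · rw [one_11, hd', ha]
    · apply hs.2
      have ha : x 0 0 = -1 := by linear_combination h'
      apply ext4
      · rw [neg_ij, one_00, ha]
      · rw [neg_ij, one_01, b0, neg_zero]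
      · rw [neg_ij, one_10, c0, neg_zero]
      · rw [neg_ij, one_11, hd', ha]

/-- at least (p-1)p/2 elements of PSL2 have trivial square -/
lemma card_sq (hp2 : p ≠ 2) : (p - 1) * p ≤ Nat.card {q : Q p // q ^ 2 = 1} * 2 := by
  have h1 := card_pre (Subgroup.center SL(2, ZMod p)) (fun q => q ^ 2 = 1)
  rw [card_center hp2] at h1
  refine (card_trace_zero_ge (p := p)).trans (le_of_le_of_eq ?_ h1)
  have himp : ∀ z : SL(2, ZMod p), z 0 0 + z 1 1 = 0 → (QuotientGroup.mk z : Q p) ^ 2 = 1 := by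
    intro z hz
    have h3 := sq_of_trace_zero z hz
    rw [← QuotientGroup.mk_pow, h3, QuotientGroup.eq_one_iff]
    exact (mem_center _).mpr (Or.inr rfl)
  exact Nat.card_le_card_of_injective (Subtype.map id himp) (Subtype.map_injective himp Function.injective_id)

lemma card_fourth (hp2 : p ≠ 2) : Nat.card {q : Q p // q ^ 4 = 1} * 2 ≤ 6 * p ^ 2 + 2 := by
  classical
  have : Fintype SL(2, ZMod p) := Fintype.ofFinite _
  have h1 := card_pre (Subgroup.center SL(2, ZMod p)) (fun q => q ^ 4 = 1)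
  rw [card_center hp2] at h1
  rw [← h1, Nat.card_eq_fintype_card, Fintype.card_subtype]
  obtain ⟨r, hr⟩ : ∃ r : ZMod p, ∀ t : ZMod p, t ^ 2 = 2 → t = r ∨ t = -r := by
    by_cases h : ∃ r : ZMod p, r ^ 2 = 2
    · obtain ⟨r, hr⟩ := h
      refine ⟨r, fun t ht => ?_⟩
      exact sq_eq_sq_iff_eq_or_eq_neg.mp (by rw [ht, hr])
    · push Not at h
      exact ⟨0, fun t ht => absurd ht (h t)⟩
  have hsub : (Finset.univ.filter (fun g : SL(2, ZMod p) => (QuotientGroup.mk g : Q p) ^ 4 = 1)) ⊆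
      {1, -1} ∪ ((Finset.univ.filter (fun x : SL(2, ZMod p) => x 0 0 + x 1 1 = 0)) ∪
      ((Finset.univ.filter (fun x : SL(2, ZMod p) => x 0 0 + x 1 1 = r)) ∪
      (Finset.univ.filter (fun x : SL(2, ZMod p) => x 0 0 + x 1 1 = -r)))) := by
    intro x hx
    rw [Finset.mem_filter, ← QuotientGroup.mk_pow, QuotientGroup.eq_one_iff, mem_center] at hx
    simp only [Finset.mem_union, Finset.mem_insert, Finset.mem_singleton, Finset.mem_filter, Finset.mem_univ, true_and]
    rcases fourth_cases x hx.2 with h | h | h | h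
    · tauto
    · tauto
    · tauto
    · have := hr _ h; tauto
  refine (Finset.card_le_card hsub).trans ?_
  refine (Finset.card_union_le _ _).trans ?_
  have e0 : ({1, -1} : Finset SL(2, ZMod p)).card ≤ 2 := Finset.card_le_two
  have e1 := card_trace_le (p := p) 0
  rw [Nat.card_eq_fintype_card, Fintype.card_subtype] at e1
  have e2 := card_trace_le (p := p) r
  rw [Nat.card_eq_fintype_card, Fintype.card_subtype] at e2
  have e3 := card_trace_le (p := p) (-r)
  rw [Nat.card_eq_fintype_card, Fintype.card_subtype] at e3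
  have e4 := Finset.card_union_le (Finset.univ.filter (fun x : SL(2, ZMod p) => x 0 0 + x 1 1 = r))
    (Finset.univ.filter (fun x : SL(2, ZMod p) => x 0 0 + x 1 1 = -r))
  have e5 := Finset.card_union_le (Finset.univ.filter (fun x : SL(2, ZMod p) => x 0 0 + x 1 1 = 0))
    ((Finset.univ.filter (fun x : SL(2, ZMod p) => x 0 0 + x 1 1 = r)) ∪
    (Finset.univ.filter (fun x : SL(2, ZMod p) => x 0 0 + x 1 1 = -r)))
  omega


/-! homomorphisms out of the free product C_4 * Z * Z * 1 -/

noncomputable def zlift {m : ℕ} {A : Type*} [Group A] (x : A) (hx : x ^ m = 1) :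
    Multiplicative (ZMod m) →* A :=
  AddMonoidHom.toMultiplicativeLeft
    (ZMod.lift m ⟨zmultiplesHom (Additive A) (Additive.ofMul x), by
      rw [zmultiplesHom_apply, ← ofMul_zpow, zpow_natCast, hx, ofMul_one]⟩)

lemma zlift_apply {m : ℕ} {A : Type*} [Group A] (x : A) (hx : x ^ m = 1) (k : ℤ) :
    zlift x hx (Multiplicative.ofAdd (k : ZMod m)) = x ^ k := by
  change Additive.toMul (ZMod.lift m ⟨zmultiplesHom (Additive A) (Additive.ofMul x), _⟩ (k : ZMod m)) = x ^ k
  rw [ZMod.lift_coe]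
  rfl

lemma zlift_one {m : ℕ} {A : Type*} [Group A] (x : A) (hx : x ^ m = 1) :
    zlift x hx (Multiplicative.ofAdd (1 : ZMod m)) = x := by
  have := zlift_apply x hx 1
  simpa using this

lemma zext {m : ℕ} {A : Type*} [Group A] (f g : Multiplicative (ZMod m) →* A)
    (h : f (Multiplicative.ofAdd 1) = g (Multiplicative.ofAdd 1)) : f = g := by
  apply MonoidHom.ext
  intro x
  obtain ⟨k, hk⟩ := ZMod.intCast_surjective (Multiplicative.toAdd x)
  have hx : x = (Multiplicative.ofAdd (1 : ZMod m)) ^ k := by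
    rw [← ofAdd_zsmul, zsmul_one, hk, ofAdd_toAdd]
  rw [hx, map_zpow, map_zpow, h]

def nn : Fin 4 → ℕ := ![4, 0, 0, 1]

abbrev HH (i : Fin 4) : Type := Multiplicative (ZMod (nn i))

abbrev PP : Type := Monoid.CoprodI HH

noncomputable def gen (i : Fin 4) : PP := Monoid.CoprodI.of (i := i) (Multiplicative.ofAdd (1 : ZMod (nn i)))

lemma gen_pow (i : Fin 4) : gen i ^ (nn i) = 1 := by
  rw [gen, ← map_pow, ← ofAdd_nsmul]
  simp

/-- the homomorphism with prescribed images -/
noncomputable def mkHom {A : Type*} [Group A] (x : Fin 4 → A) (hx : ∀ i, x i ^ (nn i) = 1) : PP →* A :=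
  Monoid.CoprodI.lift (fun i => zlift (x i) (hx i))

lemma mkHom_gen {A : Type*} [Group A] (x : Fin 4 → A) (hx : ∀ i, x i ^ (nn i) = 1) (i : Fin 4) :
    mkHom x hx (gen i) = x i := by
  rw [mkHom, gen, Monoid.CoprodI.lift_of, zlift_one]

lemma hom_ext {A : Type*} [Group A] (f g : PP →* A) (h : ∀ i, f (gen i) = g (gen i)) : f = g := by
  apply Monoid.CoprodI.ext_hom
  intro i
  exact zext _ _ (h i)

lemma pow_cond {A : Type*} [Group A] (x : A) (hx : x ^ 4 = 1) (y z : A) :
    ∀ i : Fin 4, (![x, y, z, 1] : Fin 4 → A) i ^ (nn i) = 1 := by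
  intro i
  fin_cases i
  · exact hx
  · exact pow_zero _
  · exact pow_zero _
  · exact one_pow _

noncomputable def homEquiv (A : Type*) [Group A] : (PP →* A) ≃ {x : A // x ^ 4 = 1} × (A × A) where
  toFun f := (⟨f (gen 0), by rw [← map_pow]; exact (congrArg f (gen_pow 0)).trans (map_one f)⟩, f (gen 1), f (gen 2))
  invFun u := mkHom ![u.1.1, u.2.1, u.2.2, 1] (pow_cond _ u.1.2 _ _)
  left_inv f := by
    apply hom_ext
    intro i
    rw [mkHom_gen]
    fin_cases i
    · rfl
    · rfl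
    · rfl
    · have h3 : gen 3 = 1 := by
        have := gen_pow 3
        simpa [nn] using this
      change (1 : A) = f (gen 3)
      rw [h3, map_one]
  right_inv u := by
    obtain ⟨⟨x, hx⟩, y, z⟩ := u
    refine Prod.ext (Subtype.ext ?_) (Prod.ext ?_ ?_)
    · exact mkHom_gen _ (pow_cond x hx y z) 0
    · exact mkHom_gen _ (pow_cond x hx y z) 1
    · exact mkHom_gen _ (pow_cond x hx y z) 2

lemma card_hom (A : Type*) [Group A] :
    Nat.card (PP →* A) = Nat.card {x : A // x ^ 4 = 1} * (Nat.card A * Nat.card A) := by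
  rw [Nat.card_congr (homEquiv A), Nat.card_prod, Nat.card_prod]

lemma card_nonsurj (A : Type*) [Group A] [Finite A] :
    Nat.card {f : PP →* A // ¬ Function.Surjective f} ≤
      Nat.card {x : A // x ^ 4 = 1} * Nat.card {z : A × A // Subgroup.closure {z.1, z.2} ≠ ⊤} := by
  rw [← Nat.card_prod]
  have himp : ∀ f : PP →* A, ¬ Function.Surjective f → Subgroup.closure {f (gen 1), f (gen 2)} ≠ ⊤ := by
    intro f hf htop
    apply hf
    rw [← MonoidHom.range_eq_top, eq_top_iff, ← htop, Subgroup.closure_le]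
    rintro a ha
    simp only [Set.mem_insert_iff, Set.mem_singleton_iff] at ha
    rcases ha with rfl | rfl
    · exact ⟨_, rfl⟩
    · exact ⟨_, rfl⟩
  refine Nat.card_le_card_of_injective
    (fun f => ((homEquiv A f.1).1, ⟨(homEquiv A f.1).2, himp f.1 f.2⟩)) ?_
  intro f g h
  apply Subtype.ext
  apply (homEquiv A).injective
  have h1 := congrArg (fun u => u.1) h
  have h2 := congrArg (fun u => u.2.1) h
  exact Prod.ext h1 h2

lemma card_kill (A : Type*) [Group A] [Finite A] :
    Nat.card {x : A // x ^ 2 = 1} * (Nat.card A * Nat.card A) ≤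
      Nat.card {f : PP →* A // f (gen 0 ^ 2) = 1} := by
  rw [← Nat.card_prod, ← Nat.card_prod]
  have h4 : ∀ x : A, x ^ 2 = 1 → x ^ 4 = 1 := by
    intro x hx
    rw [show (4 : ℕ) = 2 * 2 from rfl, pow_mul, hx, one_pow]
  have hfin : Finite (PP →* A) := Finite.of_equiv _ (homEquiv A).symm
  refine Nat.card_le_card_of_injective
    (fun u => ⟨(homEquiv A).symm (⟨u.1.1, h4 _ u.1.2⟩, u.2), ?_⟩) ?_
  · have h1 : (homEquiv A).symm (⟨u.1.1, h4 _ u.1.2⟩, u.2) (gen 0) = u.1.1 :=
      mkHom_gen _ (pow_cond u.1.1 (h4 _ u.1.2) u.2.1 u.2.2) 0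
    rw [map_pow, h1]; exact u.1.2
  · intro u v h
    have h1 := (homEquiv A).symm.injective (congrArg (fun u => u.1) h)
    have h2 := congrArg (fun u => u.1.1) h1
    have h3 := congrArg (fun u => u.2) h1
    exact Prod.ext (Subtype.ext h2) h3


/-! the Fuchsian group -/


noncomputable instance isoAct : MulAction (ℍ ≃ᵢ ℍ) ℍ where
  smul f z := f z
  one_smul _ := rfl
  mul_smul _ _ _ := rfl

lemma iso_smul (f : ℍ ≃ᵢ ℍ) (z : ℍ) : f • z = f z := rfl

noncomputable def psi : SL(2, ℝ) →* (ℍ ≃ᵢ ℍ) where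
  toFun A := IsometryEquiv.constSMul A
  map_one' := by
    apply IsometryEquiv.ext; intro z
    change (1 : SL(2, ℝ)) • z = z
    exact one_smul _ _
  map_mul' A B := by
    apply IsometryEquiv.ext; intro z
    change (A * B) • z = A • B • z
    exact mul_smul _ _ _

lemma psi_apply (A : SL(2, ℝ)) (z : ℍ) : psi A z = A • z := rfl

lemma psi_smul (A : SL(2, ℝ)) (z : ℍ) : psi A • z = A • z := rfl

lemma smul_rel (a b c d : ℝ) (h : a * d - b * c = 1) (z : ℍ) :
    ((psi (mk2 a b c d h) • z : ℍ) : ℂ) * (c * z + d) = a * z + b := by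
  rw [psi_smul, coe_specialLinearGroup_apply]
  simp only [mk2_00, mk2_01, mk2_10, mk2_11, Algebra.algebraMap_self, RingHom.id_apply]
  rw [div_mul_cancel₀]
  intro h0
  have him := congrArg Complex.im h0
  have hre := congrArg Complex.re h0
  simp at him hre
  have hz := z.im_pos
  rcases him with hc | hc
  · rw [hc] at hre h; simp at hre; rw [hre] at h; simp at h
  · linarith

/-- order four rotation about i -/
noncomputable def ra : SL(2, ℝ) := mk2 (√2 / 2) (√2 / 2) (-(√2 / 2)) (√2 / 2) (by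
  have : √2 * √2 = 2 := Real.mul_self_sqrt (by norm_num)
  linear_combination (1/2 : ℝ) * this)

lemma ra_rel (z : ℍ) : ((psi ra • z : ℍ) : ℂ) * (1 - z) = 1 + z := by
  have h := smul_rel (√2 / 2) (√2 / 2) (-(√2 / 2)) (√2 / 2) (by
    have : √2 * √2 = 2 := Real.mul_self_sqrt (by norm_num)
    linear_combination (1/2 : ℝ) * this) z
  have hs : ((√2 / 2 : ℝ) : ℂ) ≠ 0 := by
    rw [Complex.ofReal_ne_zero]; positivity
  apply mul_left_cancel₀ hs
  have h' : ((psi ra • z : ℍ) : ℂ) * (((-(√2 / 2) : ℝ) : ℂ) * z + ((√2 / 2 : ℝ) : ℂ)) =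
    ((√2 / 2 : ℝ) : ℂ) * z + ((√2 / 2 : ℝ) : ℂ) := h
  rw [Complex.ofReal_neg] at h'
  linear_combination h'

lemma ra2_rel (z : ℍ) : ((psi ra • psi ra • z : ℍ) : ℂ) * z = -1 := by
  have h1 := ra_rel z
  have h2 := ra_rel (psi ra • z)
  have : (2 : ℂ) ≠ 0 := by norm_num
  apply mul_left_cancel₀ this
  linear_combination (-((psi ra • psi ra • z : ℍ) : ℂ) - 1) * h1 - (1 - (z : ℂ)) * h2

lemma ra3_rel (z : ℍ) : ((psi ra • psi ra • psi ra • z : ℍ) : ℂ) * (z + 1) = z - 1 := by
  have h1 := ra2_rel z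
  have h2 := ra_rel (psi ra • psi ra • z)
  linear_combination (z : ℂ) * h2 + (((psi ra • psi ra • psi ra • z : ℍ) : ℂ) + 1) * h1

lemma ra4_rel (z : ℍ) : (psi ra • psi ra • psi ra • psi ra • z : ℍ) = z := by
  have h1 := ra3_rel z
  have h2 := ra_rel (psi ra • psi ra • psi ra • z)
  apply UpperHalfPlane.ext
  have : (2 : ℂ) ≠ 0 := by norm_num
  apply mul_left_cancel₀ this
  linear_combination ((z : ℂ) + 1) * h2 + (((psi ra • psi ra • psi ra • psi ra • z : ℍ) : ℂ) + 1) * h1

lemma psi_ra_pow : (psi ra) ^ 4 = 1 := by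
  apply IsometryEquiv.ext
  intro z
  have := ra4_rel z
  rw [← iso_smul, ← iso_smul, one_smul]
  rw [show (4 : ℕ) = 1 + 1 + 1 + 1 from rfl, pow_add, pow_add, pow_add, pow_one, mul_smul, mul_smul, mul_smul]
  exact this

/-- hyperbolic element pairing the circles of radius 1/16 about c' and c -/
noncomputable def hy (c c' : ℝ) : SL(2, ℝ) := mk2 (16 * c) (-(1 / 16) - 16 * c * c') 16 (-16 * c') (by ring)

lemma hy_rel (c c' : ℝ) (z : ℍ) : (((psi (hy c c') • z : ℍ) : ℂ) - c) * (z - c') = - (1 / 256) := by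
  have h := smul_rel (16 * c) (-(1 / 16) - 16 * c * c') 16 (-16 * c') (by ring) z
  have h' : ((psi (hy c c') • z : ℍ) : ℂ) * (((16 : ℝ) : ℂ) * z + ((-16 * c' : ℝ) : ℂ)) =
    ((16 * c : ℝ) : ℂ) * z + ((-(1 / 16) - 16 * c * c' : ℝ) : ℂ) := h
  push_cast at h'
  linear_combination (1 / 16 : ℂ) * h'

/-- closed half-disc of radius 1/16 about c -/
def disc (c : ℝ) : Set ℍ := {z | (z.re - c) ^ 2 + z.im ^ 2 ≤ 1 / 256}

lemma hy_disc (c c' : ℝ) (z : ℍ) (hz : z ∉ disc c') : psi (hy c c') • z ∈ disc c := by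
  have h := hy_rel c c' z
  set w := psi (hy c c') • z with hw
  have hn := congrArg Complex.normSq h
  rw [Complex.normSq_mul] at hn
  have e1 : Complex.normSq ((w : ℂ) - c) = (w.re - c) ^ 2 + w.im ^ 2 := by
    rw [Complex.normSq_apply]; simp; ring
  have e2 : Complex.normSq ((z : ℂ) - c') = (z.re - c') ^ 2 + z.im ^ 2 := by
    rw [Complex.normSq_apply]; simp; ring
  have e3 : Complex.normSq (-(1 / 256) : ℂ) = 1 / 65536 := by
    rw [Complex.normSq_neg]
    have : (1 / 256 : ℂ) = ((1 / 256 : ℝ) : ℂ) := by push_cast; rfl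
    rw [this, Complex.normSq_ofReal]; norm_num
  rw [e1, e2, e3] at hn
  simp only [disc, Set.mem_ofPred_eq, not_le] at hz ⊢
  by_contra hcon
  push Not at hcon
  nlinarith

/-- ping-pong sets -/
noncomputable def XX : Fin 4 → Set ℍ
  | 0 => {z | 1 ≤ z.re ^ 2 + z.im ^ 2 ∨ 0 ≤ z.re}
  | 1 => disc (-5/8) ∪ disc (-7/8)
  | 2 => disc (-1/8) ∪ disc (-3/8)
  | 3 => {z | z.re ^ 2 + z.im ^ 2 < 1 ∧ z.re < 0 ∧ z ∉ disc (-5/8) ∧ z ∉ disc (-7/8) ∧ z ∉ disc (-1/8) ∧ z ∉ disc (-3/8)}

/-- generators -/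
noncomputable def xg : Fin 4 → (ℍ ≃ᵢ ℍ) := ![psi ra, psi (hy (-5/8) (-7/8)), psi (hy (-1/8) (-3/8)), 1]

lemma xg_pow : ∀ i, xg i ^ (nn i) = 1 := pow_cond _ psi_ra_pow _ _

noncomputable def Phi : PP →* (ℍ ≃ᵢ ℍ) := mkHom xg xg_pow

lemma disc_disjoint {c c' : ℝ} (h : 1 / 4 ≤ |c - c'|) {z : ℍ} (hz : z ∈ disc c) : z ∉ disc c' := by
  intro hz'
  simp only [disc, Set.mem_ofPred_eq] at hz hz'
  have h1 : (c - c') ^ 2 ≥ 1 / 16 := by
    rw [← sq_abs]; nlinarith [abs_nonneg (c - c')]
  nlinarith [sq_nonneg (z.re - c + (z.re - c')), sq_nonneg z.im]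

lemma disc_sub {c : ℝ} (h1 : -7/8 ≤ c) (h2 : c ≤ -1/8) {z : ℍ} (hz : z ∈ disc c) :
    z.re ^ 2 + z.im ^ 2 < 1 ∧ z.re < 0 := by
  simp only [disc, Set.mem_ofPred_eq] at hz
  have h3 : z.re - c ≤ 1/16 := by nlinarith [sq_nonneg z.im, sq_nonneg (z.re - c)]
  have h4 : -(1/16) ≤ z.re - c := by nlinarith [sq_nonneg z.im, sq_nonneg (z.re - c)]
  constructor
  · nlinarith [sq_nonneg z.im, sq_nonneg (z.re - c)]
  · linarith

lemma xx0_compl {z : ℍ} (hz : z ∉ XX 0) : z.re ^ 2 + z.im ^ 2 < 1 ∧ z.re < 0 := by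
  have h : ¬ (1 ≤ z.re ^ 2 + z.im ^ 2 ∨ 0 ≤ z.re) := hz
  push Not at h
  exact h

lemma ra_pp1 {z : ℍ} (hz : z ∉ XX 0) : psi ra • z ∈ XX 0 := by
  obtain ⟨h1, h2⟩ := xx0_compl hz
  have h := ra_rel z
  set w := psi ra • z with hw
  have hre := congrArg Complex.re h
  have him := congrArg Complex.im h
  simp at hre him
  right
  by_contra hneg
  push Not at hneg
  -- w.re * |1-z|^2 = 1 - |z|^2
  have key : w.re * ((1 - z.re) ^ 2 + z.im ^ 2) = 1 - z.re ^ 2 - z.im ^ 2 := by
    linear_combination (1 - z.re) * hre - z.im * him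
  nlinarith [sq_nonneg z.im, sq_nonneg (1 - z.re)]

lemma ra_pp2 {z : ℍ} (hz : z ∉ XX 0) : psi ra • psi ra • z ∈ XX 0 := by
  obtain ⟨h1, h2⟩ := xx0_compl hz
  have h := ra2_rel z
  set w := psi ra • psi ra • z with hw
  left
  have hn := congrArg Complex.normSq h
  rw [Complex.normSq_mul, Complex.normSq_neg, Complex.normSq_one] at hn
  have e1 : Complex.normSq (w : ℂ) = w.re ^ 2 + w.im ^ 2 := by
    rw [Complex.normSq_apply]; simp; ring
  have e2 : Complex.normSq (z : ℂ) = z.re ^ 2 + z.im ^ 2 := by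
    rw [Complex.normSq_apply]; simp; ring
  rw [e1, e2] at hn
  by_contra hcon
  push Not at hcon
  have : 0 ≤ w.re ^ 2 + w.im ^ 2 := by positivity
  nlinarith [sq_nonneg z.im, sq_nonneg z.re]

lemma ra_pp3 {z : ℍ} (hz : z ∉ XX 0) : psi ra • psi ra • psi ra • z ∈ XX 0 := by
  obtain ⟨h1, h2⟩ := xx0_compl hz
  have h := ra3_rel z
  set w := psi ra • psi ra • psi ra • z with hw
  left
  have hn := congrArg Complex.normSq h
  rw [Complex.normSq_mul] at hn
  have e1 : Complex.normSq (w : ℂ) = w.re ^ 2 + w.im ^ 2 := by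
    rw [Complex.normSq_apply]; simp; ring
  have e2 : Complex.normSq ((z : ℂ) + 1) = (z.re + 1) ^ 2 + z.im ^ 2 := by
    rw [Complex.normSq_apply]; simp; ring
  have e3 : Complex.normSq ((z : ℂ) - 1) = (z.re - 1) ^ 2 + z.im ^ 2 := by
    rw [Complex.normSq_apply]; simp; ring
  rw [e1, e2, e3] at hn
  by_contra hcon
  push Not at hcon
  have h5 : 0 < (z.re + 1) ^ 2 + z.im ^ 2 := by
    have := z.im_pos
    positivity
  nlinarith

lemma xx_disj {i j : Fin 4} (h : i ≠ j) : Disjoint (XX i) (XX j) := by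
  have h01 : ∀ z, z ∈ XX 1 → z ∉ XX 0 := by
    rintro z (hz | hz) h0
    · obtain ⟨a, b⟩ := disc_sub (by norm_num) (by norm_num) hz
      rcases h0 with h | h <;> linarith
    · obtain ⟨a, b⟩ := disc_sub (by norm_num) (by norm_num) hz
      rcases h0 with h | h <;> linarith
  have h02 : ∀ z, z ∈ XX 2 → z ∉ XX 0 := by
    rintro z (hz | hz) h0
    · obtain ⟨a, b⟩ := disc_sub (by norm_num) (by norm_num) hz
      rcases h0 with h | h <;> linarith
    · obtain ⟨a, b⟩ := disc_sub (by norm_num) (by norm_num) hz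
      rcases h0 with h | h <;> linarith
  have h03 : ∀ z, z ∈ XX 3 → z ∉ XX 0 := by
    rintro z ⟨a, b, _⟩ h0
    rcases h0 with h | h <;> linarith
  have h12 : ∀ z, z ∈ XX 1 → z ∉ XX 2 := by
    rintro z (hz | hz) (h0 | h0)
    · exact disc_disjoint (by norm_num [abs_of_neg]) hz h0
    · exact disc_disjoint (by norm_num [abs_of_neg]) hz h0
    · exact disc_disjoint (by norm_num [abs_of_neg]) hz h0
    · exact disc_disjoint (by norm_num [abs_of_neg]) hz h0
  have h13 : ∀ z, z ∈ XX 1 → z ∉ XX 3 := by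
    rintro z hz ⟨_, _, a, b, _⟩
    rcases hz with hz | hz
    · exact a hz
    · exact b hz
  have h23 : ∀ z, z ∈ XX 2 → z ∉ XX 3 := by
    rintro z hz ⟨_, _, _, _, a, b⟩
    rcases hz with hz | hz
    · exact a hz
    · exact b hz
  rw [Set.disjoint_left]
  intro z hi hj
  fin_cases i <;> fin_cases j
  · exact h rfl
  · exact h01 z hj hi
  · exact h02 z hj hi
  · exact h03 z hj hi
  · exact h01 z hi hj
  · exact h rfl
  · exact h12 z hi hj
  · exact h13 z hi hj
  · exact h02 z hi hj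
  · exact h12 z hj hi
  · exact h rfl
  · exact h23 z hi hj
  · exact h03 z hi hj
  · exact h13 z hj hi
  · exact h23 z hj hi
  · exact h rfl

/-- ping-pong for one pairing -/
lemma pp_pow {G α : Type*} [Group G] [MulAction G α] (b : G) (Dm Dp : Set α)
    (hb : ∀ z, z ∉ Dm → b • z ∈ Dp) (hd : ∀ z, z ∈ Dp → z ∉ Dm) (k : ℤ) (hk : k ≠ 0) (z : α)
    (hz : z ∉ Dp ∪ Dm) : b ^ k • z ∈ Dp ∪ Dm := by
  have hzp : z ∉ Dp := fun h => hz (Or.inl h)
  have hzm : z ∉ Dm := fun h => hz (Or.inr h)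
  have hpos : ∀ n : ℕ, b ^ (n + 1) • z ∈ Dp := by
    intro n
    induction n with
    | zero => rw [zero_add, pow_one]; exact hb z hzm
    | succ n ih => rw [pow_succ' b (n + 1), mul_smul]; exact hb _ (hd _ ih)
  have hb' : ∀ z, z ∉ Dp → b⁻¹ • z ∈ Dm := by
    intro z hz
    by_contra hcon
    have := hb _ hcon
    rw [smul_inv_smul] at this
    exact hz this
  have hneg : ∀ n : ℕ, (b⁻¹) ^ (n + 1) • z ∈ Dm := by
    intro n
    induction n with
    | zero => rw [zero_add, pow_one]; exact hb' z hzp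
    | succ n ih =>
      rw [pow_succ' (b⁻¹) (n + 1), mul_smul]
      exact hb' _ (fun h => hd _ h ih)
  rcases lt_or_gt_of_ne hk with h | h
  · obtain ⟨n, hn⟩ := Int.eq_negSucc_of_lt_zero h
    right
    rw [hn, zpow_negSucc, ← inv_pow]
    exact hneg n
  · obtain ⟨n, hn⟩ := Int.eq_succ_of_zero_lt h
    left
    rw [hn]
    exact_mod_cast hpos n

lemma hh_eq (i : Fin 4) (h : HH i) : ∃ k : ℤ, h = Multiplicative.ofAdd ((k : ZMod (nn i))) := by
  obtain ⟨k, hk⟩ := ZMod.intCast_surjective (Multiplicative.toAdd h)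
  exact ⟨k, by rw [hk]; rfl⟩

lemma pp_main : Pairwise fun i j => ∀ h : HH i, h ≠ 1 → zlift (xg i) (xg_pow i) h • XX j ⊆ XX i := by
  intro i j hij h hh
  rintro _ ⟨z, hz, rfl⟩
  have hzi : z ∉ XX i := Set.disjoint_left.mp (xx_disj hij.symm) hz
  obtain ⟨k, rfl⟩ := hh_eq i h
  change zlift (xg i) (xg_pow i) (Multiplicative.ofAdd ((k : ZMod (nn i)))) • z ∈ XX i
  rw [zlift_apply]
  fin_cases i
  · -- order four
    change psi ra ^ k • z ∈ XX 0
    have hk4 : k % 4 ≠ 0 := by
      intro h4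
      apply hh
      have : ((k : ℤ) : ZMod 4) = 0 := by
        rw [ZMod.intCast_zmod_eq_zero_iff_dvd]
        exact Int.dvd_of_emod_eq_zero h4
      change Multiplicative.ofAdd ((k : ZMod 4)) = 1
      rw [this]; rfl
    have hkk : psi ra ^ k = psi ra ^ (k % 4) := by
      conv_lhs => rw [← Int.emod_add_mul_ediv k 4, _root_.zpow_add, _root_.zpow_mul]
      have : psi ra ^ (4 : ℤ) = 1 := by exact_mod_cast psi_ra_pow
      rw [this, _root_.one_zpow, mul_one]
    rw [hkk]
    have h0 : 0 ≤ k % 4 := Int.emod_nonneg _ (by norm_num)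
    have h4 : k % 4 < 4 := Int.emod_lt_of_pos _ (by norm_num)
    have hcases : k % 4 = 1 ∨ k % 4 = 2 ∨ k % 4 = 3 := by omega
    rcases hcases with h | h | h <;> rw [h]
    · rw [zpow_one]; exact ra_pp1 hzi
    · rw [show (2 : ℤ) = 1 + 1 from rfl, _root_.zpow_add, zpow_one, mul_smul]; exact ra_pp2 hzi
    · rw [show (3 : ℤ) = 1 + 1 + 1 from rfl, _root_.zpow_add, _root_.zpow_add, zpow_one, mul_smul, mul_smul]; exact ra_pp3 hzi
  · have hk : k ≠ 0 := by
      rintro rfl; apply hh
      change Multiplicative.ofAdd (((0 : ℤ) : ZMod 0)) = 1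
      rfl
    exact pp_pow (psi (hy (-5/8) (-7/8))) (disc (-7/8)) (disc (-5/8)) (fun z hz => hy_disc _ _ z hz)
      (fun z hz => disc_disjoint (by norm_num [abs_of_pos]) hz) k hk z hzi
  · have hk : k ≠ 0 := by
      rintro rfl; apply hh
      change Multiplicative.ofAdd (((0 : ℤ) : ZMod 0)) = 1
      rfl
    exact pp_pow (psi (hy (-1/8) (-3/8))) (disc (-3/8)) (disc (-1/8)) (fun z hz => hy_disc _ _ z hz)
      (fun z hz => disc_disjoint (by norm_num [abs_of_pos]) hz) k hk z hzi
  · exfalso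
    apply hh
    change Multiplicative.ofAdd ((k : ZMod 1)) = 1
    rw [Subsingleton.elim ((k : ZMod 1)) 0]; rfl

lemma neword_ne {i j : Fin 4} (w : Monoid.CoprodI.NeWord HH i j) : i ≠ 3 ∧ j ≠ 3 := by
  induction w with
  | @singleton i x hx =>
    have : i ≠ 3 := by
      rintro rfl
      apply hx
      exact Subsingleton.elim (α := ZMod 1) _ _
    exact ⟨this, this⟩
  | append w1 hne w2 ih1 ih2 => exact ⟨ih1.1, ih2.2⟩

lemma Phi_wander (g : PP) (hg : g ≠ 1) : ∃ i : Fin 4, i ≠ 3 ∧ ∀ z ∈ XX 3, Phi g • z ∈ XX i := by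
  classical
  have hw : Monoid.CoprodI.Word.equiv g ≠ Monoid.CoprodI.Word.empty := by
    intro h
    apply hg
    have := congrArg Monoid.CoprodI.Word.equiv.symm h
    rw [Equiv.symm_apply_apply] at this
    rw [this]
    exact Monoid.CoprodI.Word.prod_empty
  obtain ⟨i, j, w, hww⟩ := Monoid.CoprodI.NeWord.of_word _ hw
  have hprod : w.prod = g := by
    have := congrArg Monoid.CoprodI.Word.equiv.symm hww
    rw [Equiv.symm_apply_apply] at this
    exact this
  obtain ⟨hi, hj⟩ := neword_ne w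
  refine ⟨i, hi, fun z hz => ?_⟩
  have := Monoid.CoprodI.lift_word_ping_pong (fun i => zlift (xg i) (xg_pow i)) XX pp_main w (k := 3) hj
  rw [hprod] at this
  exact this ⟨z, hz, rfl⟩

lemma z0_mem : (⟨⟨-1/2, 1/2⟩, by norm_num⟩ : ℍ) ∈ XX 3 := by
  have hre : (⟨⟨-1/2, 1/2⟩, by norm_num⟩ : ℍ).re = -1/2 := rfl
  have him : (⟨⟨-1/2, 1/2⟩, by norm_num⟩ : ℍ).im = 1/2 := rfl
  refine ⟨?_, ?_, ?_, ?_, ?_, ?_⟩
  · rw [hre, him]; norm_num
  · rw [hre]; norm_num
  all_goals
    simp only [disc, Set.mem_ofPred_eq, not_le]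
    rw [hre, him]; norm_num

noncomputable def z0 : ℍ := ⟨⟨-1/2, 1/2⟩, by norm_num⟩

lemma z0_mem' : z0 ∈ XX 3 := z0_mem

lemma Phi_injective : Function.Injective Phi := by
  rw [injective_iff_map_eq_one]
  intro g hg
  by_contra hne
  obtain ⟨i, hi, h⟩ := Phi_wander g hne
  have := h z0 z0_mem'
  rw [hg, one_smul] at this
  exact Set.disjoint_left.mp (xx_disj hi) this z0_mem'

noncomputable def Gam : Subgroup (ℍ ≃ᵢ ℍ) := Phi.range

lemma Gam_wander (g : ℍ ≃ᵢ ℍ) (hg : g ∈ Gam) (h1 : g ≠ 1) : ∀ z ∈ XX 3, g z ∉ XX 3 := by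
  obtain ⟨x, rfl⟩ := hg
  have hx : x ≠ 1 := by rintro rfl; exact h1 (map_one _)
  obtain ⟨i, hi, h⟩ := Phi_wander x hx
  intro z hz hz'
  exact Set.disjoint_left.mp (xx_disj hi) (h z hz) hz'

lemma isOpen_XX3 : IsOpen (XX 3) := by
  have hre : Continuous (fun z : ℍ => z.re) := UpperHalfPlane.continuous_re
  have him : Continuous (fun z : ℍ => z.im) := UpperHalfPlane.continuous_im
  have hdisc : ∀ c : ℝ, IsOpen {z : ℍ | z ∉ disc c} := by
    intro c
    have : {z : ℍ | z ∉ disc c} = {z : ℍ | 1 / 256 < (z.re - c) ^ 2 + z.im ^ 2} := by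
      ext z; simp only [disc, Set.mem_ofPred_eq, not_le]
    rw [this]
    exact isOpen_lt continuous_const (((hre.sub continuous_const).pow 2).add (him.pow 2))
  have h1 : IsOpen {z : ℍ | z.re ^ 2 + z.im ^ 2 < 1} := isOpen_lt ((hre.pow 2).add (him.pow 2)) continuous_const
  have h2 : IsOpen {z : ℍ | z.re < 0} := isOpen_lt hre continuous_const
  exact h1.inter (h2.inter ((hdisc _).inter ((hdisc _).inter ((hdisc _).inter (hdisc _)))))

lemma proper_of_wandering (Γ : Subgroup (ℍ ≃ᵢ ℍ)) (U : Set ℍ) (hU : IsOpen U) {z : ℍ} (hz : z ∈ U)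
    (h : ∀ g ∈ Γ, g ≠ 1 → ∀ w ∈ U, g w ∉ U) (K : Set ℍ) (hK : IsCompact K) :
    {g : ℍ ≃ᵢ ℍ | g ∈ Γ ∧ (g '' K ∩ K).Nonempty}.Finite := by
  by_contra hinf
  have hinf' : {g : ℍ ≃ᵢ ℍ | g ∈ Γ ∧ (g '' K ∩ K).Nonempty}.Infinite := hinf
  obtain ⟨ε, hε, hball⟩ := Metric.isOpen_iff.mp hU z hz
  obtain ⟨R, hR⟩ := hK.isBounded.subset_closedBall z
  have hcomp : IsCompact (Metric.closedBall z (2 * R)) := isCompact_closedBall _ _
  obtain ⟨t, ht, htc⟩ := Metric.totallyBounded_iff.mp hcomp.totallyBounded (ε / 2) (half_pos hε)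
  have hmem : ∀ g ∈ {g : ℍ ≃ᵢ ℍ | g ∈ Γ ∧ (g '' K ∩ K).Nonempty}, g z ∈ Metric.closedBall z (2 * R) := by
    rintro g ⟨_, ⟨w, ⟨v, hv, rfl⟩, hw⟩⟩
    have e1 := hR hv
    have e2 := hR hw
    rw [Metric.mem_closedBall] at e1 e2 ⊢
    have e3 : dist (g z) (g v) = dist z v := g.isometry.dist_eq z v
    calc dist (g z) z ≤ dist (g z) (g v) + dist (g v) z := dist_triangle _ _ _
      _ ≤ R + R := by rw [e3, dist_comm z v]; exact add_le_add e1 e2
      _ = 2 * R := by ring
  have hch : ∀ g ∈ {g : ℍ ≃ᵢ ℍ | g ∈ Γ ∧ (g '' K ∩ K).Nonempty}, ∃ y ∈ t, g z ∈ Metric.ball y (ε / 2) := by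
    intro g hg
    have := htc (hmem g hg)
    simpa using this
  choose! y hy hyb using hch
  obtain ⟨g, hg, g', hg', hne, heq⟩ := hinf'.exists_ne_map_eq_of_mapsTo (f := y) (t := t) hy ht
  have d1 := hyb g hg
  have d2 := hyb g' hg'
  rw [heq] at d1
  rw [Metric.mem_ball] at d1 d2
  have d3 : dist (g z) (g' z) < ε := by
    calc dist (g z) (g' z) ≤ dist (g z) (y g') + dist (g' z) (y g') := dist_triangle_right _ _ _
      _ < ε / 2 + ε / 2 := add_lt_add d1 d2
      _ = ε := by ring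
  have d4 : dist ((g'⁻¹ * g) z) z < ε := by
    have : dist (g' ((g'⁻¹ * g) z)) (g' z) = dist ((g'⁻¹ * g) z) z := g'.isometry.dist_eq _ _
    rw [← this]
    have e : g' ((g'⁻¹ * g) z) = g z := by
      change (g' * (g'⁻¹ * g)) z = g z
      rw [mul_inv_cancel_left]
    rw [e]; exact d3
  refine h (g'⁻¹ * g) (Γ.mul_mem (Γ.inv_mem hg'.1) hg.1) ?_ z hz (hball (Metric.mem_ball.mpr d4))
  intro h1
  apply hne
  rw [inv_mul_eq_one] at h1
  exact h1.symm

lemma Gam_fg : Gam.FG := by
  have htop : (⊤ : Subgroup PP) = Subgroup.closure (Set.range gen) := by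
    rw [eq_comm, eq_top_iff]
    intro x _
    induction x using Monoid.CoprodI.induction_on with
    | one => exact Subgroup.one_mem _
    | of i m =>
      obtain ⟨k, rfl⟩ := hh_eq i m
      have : (Monoid.CoprodI.of (Multiplicative.ofAdd ((k : ZMod (nn i)))) : PP) = gen i ^ k := by
        rw [gen, ← map_zpow, ← ofAdd_zsmul, zsmul_one]
      rw [this]
      exact Subgroup.zpow_mem _ (Subgroup.subset_closure (Set.mem_range_self i)) _
    | mul x y hx hy => exact Subgroup.mul_mem _ (hx trivial) (hy trivial)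
  rw [Subgroup.fg_iff]
  refine ⟨Phi '' (Set.range gen), ?_, (Set.finite_range gen).image Phi⟩
  rw [← MonoidHom.map_closure, ← htop, Gam, MonoidHom.range_eq_map]

lemma Gam_oriented (g : ℍ ≃ᵢ ℍ) (hg : g ∈ Gam) : ∃ A : SL(2, ℝ), ∀ z : ℍ, g z = A • z := by
  obtain ⟨x, rfl⟩ := hg
  have h : Phi x ∈ psi.range := by
    induction x using Monoid.CoprodI.induction_on with
    | one => rw [map_one]; exact Subgroup.one_mem _
    | of i m =>
      have : Phi (Monoid.CoprodI.of m) = zlift (xg i) (xg_pow i) m := Monoid.CoprodI.lift_of _ _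
      rw [this]
      obtain ⟨k, rfl⟩ := hh_eq i m
      rw [zlift_apply]
      apply Subgroup.zpow_mem
      fin_cases i
      · exact ⟨_, rfl⟩
      · exact ⟨_, rfl⟩
      · exact ⟨_, rfl⟩
      · exact Subgroup.one_mem _
    | mul x y hx hy => rw [map_mul]; exact Subgroup.mul_mem _ hx hy
  obtain ⟨A, hA⟩ := h
  exact ⟨A, fun z => by rw [← hA]; rfl⟩

lemma Phi_gen (i : Fin 4) : Phi (gen i) = xg i := mkHom_gen _ _ _

lemma Phi_gen1_pow (k : ℕ) (hk : 0 < k) (z : ℍ) (hz : z ∉ XX 1) : Phi (gen 1) ^ k • z ∈ XX 1 := by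
  rw [Phi_gen]
  have := pp_pow (psi (hy (-5/8) (-7/8))) (disc (-7/8)) (disc (-5/8)) (fun z hz => hy_disc _ _ z hz)
      (fun z hz => disc_disjoint (by norm_num [abs_of_pos]) hz) (k : ℤ) (by omega) z hz
  rw [zpow_natCast] at this
  exact this

lemma Phi_gen2_pow (k : ℕ) (hk : 0 < k) (z : ℍ) (hz : z ∉ XX 2) : Phi (gen 2) ^ k • z ∈ XX 2 := by
  rw [Phi_gen]
  have := pp_pow (psi (hy (-1/8) (-3/8))) (disc (-3/8)) (disc (-1/8)) (fun z hz => hy_disc _ _ z hz)
      (fun z hz => disc_disjoint (by norm_num [abs_of_pos]) hz) (k : ℤ) (by omega) z hz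
  rw [zpow_natCast] at this
  exact this

lemma Gam_fuchsian : IsFuchsian Gam where
  fg := Gam_fg
  discrete := proper_of_wandering Gam (XX 3) isOpen_XX3 z0_mem' Gam_wander
  nonelementary := by
    intro A hA hidx
    obtain ⟨m, hm, _, hma⟩ := Subgroup.exists_pow_mem_of_relIndex_ne_zero hidx
      (show Phi (gen 1) ∈ Gam from ⟨gen 1, rfl⟩)
    obtain ⟨n, hn, _, hna⟩ := Subgroup.exists_pow_mem_of_relIndex_ne_zero hidx
      (show Phi (gen 2) ∈ Gam from ⟨gen 2, rfl⟩)
    refine ⟨_, hma.1, _, hna.1, ?_⟩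
    intro h
    have h1 : z0 ∉ XX 1 := fun h => Set.disjoint_left.mp (xx_disj (by decide)) h z0_mem'
    have h2 : z0 ∉ XX 2 := fun h => Set.disjoint_left.mp (xx_disj (by decide)) h z0_mem'
    have e1 : (Phi (gen 1) ^ m * Phi (gen 2) ^ n) • z0 ∈ XX 1 := by
      rw [mul_smul]
      exact Phi_gen1_pow m hm _ (fun h => Set.disjoint_left.mp (xx_disj (by decide)) h (Phi_gen2_pow n hn z0 h2))
    have e2 : (Phi (gen 2) ^ n * Phi (gen 1) ^ m) • z0 ∈ XX 2 := by
      rw [mul_smul]
      exact Phi_gen2_pow n hn _ (fun h => Set.disjoint_left.mp (xx_disj (by decide)) h (Phi_gen1_pow m hm z0 h1))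
    rw [h] at e1
    exact Set.disjoint_left.mp (xx_disj (by decide)) e1 e2

/-- the killed element a^2 b a^2 b^-1 -/
noncomputable def kel : PP := gen 0 ^ 2 * (gen 1 * gen 0 ^ 2 * (gen 1)⁻¹)

lemma kel_out (z : ℍ) (hz : z ∉ XX 1) : Phi kel • z ∈ XX 0 := by
  have hb : Phi (gen 1) ^ (-1 : ℤ) • z ∈ XX 1 := by
    rw [Phi_gen]
    exact pp_pow (psi (hy (-5/8) (-7/8))) (disc (-7/8)) (disc (-5/8)) (fun z hz => hy_disc _ _ z hz)
      (fun z hz => disc_disjoint (by norm_num [abs_of_pos]) hz) (-1) (by norm_num) z hz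
  have ha : ∀ w : ℍ, w ∉ XX 0 → Phi (gen 0) ^ 2 • w ∈ XX 0 := by
    intro w hw
    rw [Phi_gen, pow_two, mul_smul]
    exact ra_pp2 hw
  have hb1 : ∀ w : ℍ, w ∉ XX 1 → Phi (gen 1) • w ∈ XX 1 := by
    intro w hw
    have := Phi_gen1_pow 1 one_pos w hw
    rwa [pow_one] at this
  have d01 : ∀ w, w ∈ XX 0 → w ∉ XX 1 := fun w h h' => Set.disjoint_left.mp (xx_disj (by decide)) h h'
  have d10 : ∀ w, w ∈ XX 1 → w ∉ XX 0 := fun w h h' => Set.disjoint_left.mp (xx_disj (by decide)) h h'
  rw [kel, map_mul, map_mul, map_mul, map_pow, map_inv, mul_smul, mul_smul, mul_smul]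
  rw [_root_.zpow_neg_one] at hb
  exact ha _ (d10 _ (hb1 _ (d01 _ (ha _ (d10 _ hb)))))

lemma kel_inf : ¬ IsOfFinOrder (Phi kel) := by
  rw [isOfFinOrder_iff_pow_eq_one]
  rintro ⟨n, hn, h⟩
  have key : ∀ k : ℕ, Phi kel ^ (k + 1) • z0 ∈ XX 0 := by
    intro k
    induction k with
    | zero =>
      rw [zero_add, pow_one]
      exact kel_out _ (fun h => Set.disjoint_left.mp (xx_disj (by decide)) h z0_mem')
    | succ k ih =>
      rw [pow_succ' _ (k + 1), mul_smul]
      exact kel_out _ (fun h => Set.disjoint_left.mp (xx_disj (by decide)) ih h)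
  obtain ⟨k, rfl⟩ : ∃ k, n = k + 1 := ⟨n - 1, by omega⟩
  have := key k
  rw [h, one_smul] at this
  exact Set.disjoint_left.mp (xx_disj (by decide)) this z0_mem'


/-! final assembly -/

lemma card_lt {a b : ℕ} (h : a < b) (ha : 1 ≤ a) :
    (a - 1) * a ^ 2 + (a - 1) * a < (b - 1) * b ^ 2 + (b - 1) * b := by
  obtain ⟨a, rfl⟩ : ∃ c, a = c + 1 := ⟨a - 1, by omega⟩
  obtain ⟨b, rfl⟩ : ∃ c, b = c + 1 := ⟨b - 1, by omega⟩
  simp only [Nat.add_sub_cancel]
  have h' : a < b := by omega
  have h1 : a * (a + 1) ^ 2 ≤ b * (b + 1) ^ 2 := Nat.mul_le_mul h'.le (Nat.pow_le_pow_left (by omega) 2)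
  have h2 : a * (a + 1) < b * (b + 1) := by nlinarith
  omega

lemma family_ok : IsInfiniteSetOfFiniteSimpleGroups PSLFamily where
  infinite := by
    have hinf : {p : ℕ | p.Prime ∧ 5 ≤ p}.Infinite := by
      rw [Set.infinite_iff_exists_gt] 
      intro a
      obtain ⟨p, hp1, hp2⟩ := Nat.exists_infinite_primes (a + 5 + 1)
      exact ⟨p, ⟨hp2, by omega⟩, by omega⟩
    exact hinf.to_subtype
  distinct := by
    rintro ⟨a, ha, ha5⟩ ⟨b, hb, hb5⟩ ⟨e⟩
    have : Fact a.Prime := ⟨ha⟩
    have : Fact b.Prime := ⟨hb⟩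
    have h := Nat.card_congr e.toEquiv
    have h1 := card_Q (p := a) (by omega)
    have h2 := card_Q (p := b) (by omega)
    have h3 : Nat.card (Q a) = Nat.card (Q b) := h
    rw [h3, h2] at h1
    apply Subtype.ext
    change a = b
    rcases lt_trichotomy a b with hlt | heq | hgt
    · have := card_lt hlt (by omega); omega
    · exact heq
    · have := card_lt hgt (by omega); omega
  finite := by
    rintro ⟨a, ha, ha5⟩
    have : Fact a.Prime := ⟨ha⟩
    have : NeZero a := ⟨by omega⟩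
    change Finite (Q a)
    infer_instance
  simple := by
    rintro ⟨a, ha, ha5⟩
    have : Fact a.Prime := ⟨ha⟩
    exact Matrix.ProjectiveSpecialLinearGroup.rank_two_simple (by rw [Nat.card_zmod]; exact (by omega : 4 ≤ a))
  nonabelian := by
    rintro ⟨a, ha, ha5⟩
    have : Fact a.Prime := ⟨ha⟩
    refine ⟨(QuotientGroup.mk (up 1) : Q a), (QuotientGroup.mk (lo 1) : Q a), ?_⟩
    intro h
    have h1 : (QuotientGroup.mk (up 1 * lo 1) : Q a) = QuotientGroup.mk (lo 1 * up 1) := h
    rw [QuotientGroup.eq, mem_center] at h1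
    have e : ∀ x : SL(2, ZMod a), (up 1 * lo 1)⁻¹ * (lo 1 * up 1) = x → lo 1 * up 1 = up 1 * lo 1 * x := by
      intro x hx; rw [← hx]; group
    have two_ne : ((1 : ℕ) : ZMod a) ≠ 0 := by rw [Nat.cast_one]; exact one_ne_zero
    have three_ne : ((3 : ℕ) : ZMod a) ≠ 0 := by
      intro h3
      rw [ZMod.natCast_eq_zero_iff] at h3
      have := Nat.le_of_dvd (by norm_num) h3
      omega
    rcases h1 with h1 | h1
    · have h2 := e _ h1
      have h3 := congrArg (fun g : SL(2, ZMod a) => g 0 0) h2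
      simp only [mul_ij, up, lo, mk2_00, mk2_01, mk2_10, mk2_11, one_00, one_10] at h3
      apply two_ne
      push_cast
      linear_combination - h3
    · have h2 := e _ h1
      have h3 := congrArg (fun g : SL(2, ZMod a) => g 0 0) h2
      simp only [mul_ij, up, lo, mk2_00, mk2_01, mk2_10, mk2_11, neg_ij, one_00, one_10] at h3
      apply three_ne
      push_cast
      linear_combination h3

def homCongr {Γ Δ : Type*} [Group Γ] [Group Δ] (e : Γ ≃* Δ) (G : Type*) [Group G] :
    (Δ →* G) ≃ (Γ →* G) where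
  toFun φ := φ.comp e.toMonoidHom
  invFun φ := φ.comp e.symm.toMonoidHom
  left_inv φ := by
    apply MonoidHom.ext; intro x
    change φ (e (e.symm x)) = φ x
    rw [e.apply_symm_apply]
  right_inv φ := by
    apply MonoidHom.ext; intro x
    change φ (e.symm (e x)) = φ x
    rw [e.symm_apply_apply]

noncomputable def eGam : PP ≃* Gam := MonoidHom.ofInjective Phi_injective

lemma proportion_eq (G : Type*) [Group G] (P : (Gam →* G) → Prop) :
    proportion Gam G P = (Nat.card {φ : PP →* G // P ((homCongr eGam G).symm φ)} : ℝ) / (Nat.card (PP →* G) : ℝ) := by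
  rw [proportion, Nat.card_congr (homCongr eGam G)]
  congr 2
  apply Nat.card_congr
  exact (homCongr eGam G).subtypeEquiv (fun φ => by rw [Equiv.symm_apply_apply])

lemma exists_const : ∃ C : ℕ, ∀ (p : ℕ) [Fact p.Prime], p ≠ 2 →
    Nat.card {z : Q p × Q p // Subgroup.closure {z.1, z.2} ≠ ⊤} * 4 ≤ C * p ^ 2 * Nat.card SL(2, ZMod p) :=
  ⟨2 * Nat.factorial 120 + 6, fun _ _ h => card_badQ h⟩

lemma hypH : HypothesisH Gam PSLFamily := by
  intro ε hε
  obtain ⟨C, hC⟩ := exists_const
  obtain ⟨m, hm⟩ := exists_nat_gt ((2 * C : ℝ) / ε)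
  refine ⟨m ^ 3 + 1, ?_⟩
  rintro ⟨p, hp, hp5⟩ hN
  have : Fact p.Prime := ⟨hp⟩
  have hp2 : p ≠ 2 := by omega
  have hcQ := card_Q (p := p) hp2
  have hcSL := card_SL (p := p)
  have hbad := hC p hp2
  change 1 - ε ≤ proportion Gam (Q p) (fun φ => Function.Surjective φ)
  have hN' : m ^ 3 + 1 ≤ Nat.card (Q p) := hN
  -- p > m
  have hpm : m < p := by
    by_contra hcon
    push Not at hcon
    have h1 : Nat.card (Q p) * 2 ≤ 2 * p ^ 3 := by
      rw [hcQ]
      obtain ⟨k, rfl⟩ : ∃ k, p = k + 1 := ⟨p - 1, by omega⟩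
      simp only [Nat.add_sub_cancel]
      nlinarith [sq_nonneg k]
    have h2 : p ^ 3 ≤ m ^ 3 := Nat.pow_le_pow_left hcon 3
    omega
  rw [proportion_eq]
  have hfinQ : Finite (Q p) := inferInstance
  have hfinH : Finite (PP →* Q p) := Finite.of_equiv _ (homEquiv (Q p)).symm
  have hsurj : ∀ φ : PP →* Q p, Function.Surjective ((homCongr eGam (Q p)).symm φ) ↔ Function.Surjective φ := by
    intro φ
    change Function.Surjective (φ ∘ eGam.symm) ↔ _
    exact eGam.symm.toEquiv.surjective_comp φ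
  have hcongr : Nat.card {φ : PP →* Q p // Function.Surjective ((homCongr eGam (Q p)).symm φ)} =
      Nat.card {φ : PP →* Q p // Function.Surjective φ} :=
    Nat.card_congr (Equiv.subtypeEquivRight hsurj)
  rw [hcongr]
  have hsplit : Nat.card {φ : PP →* Q p // Function.Surjective φ} + Nat.card {φ : PP →* Q p // ¬ Function.Surjective φ}
      = Nat.card (PP →* Q p) := by
    classical
    rw [← Nat.card_sum]
    exact Nat.card_congr (Equiv.sumCompl _)
  have hns := card_nonsurj (Q p)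
  have htot := card_hom (Q p)
  set T := Nat.card (PP →* Q p) with hT
  set a := Nat.card {x : Q p // x ^ 4 = 1} with ha
  set n := Nat.card (Q p) with hn
  set B := Nat.card {z : Q p × Q p // Subgroup.closure {z.1, z.2} ≠ ⊤} with hB
  have hapos : 0 < a := by
    rw [ha]
    have : Nonempty {x : Q p // x ^ 4 = 1} := ⟨⟨1, one_pow _⟩⟩
    exact Nat.card_pos
  have hnpos : 0 < n := Nat.card_pos
  -- B ≤ C p^2 n / 2
  have hSLn : Nat.card SL(2, ZMod p) = 2 * n := by omega
  have hBn : 2 * B ≤ C * p ^ 2 * n := by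
    rw [hSLn] at hbad
    have : B * 4 ≤ (C * p ^ 2) * (2 * n) := hbad
    nlinarith
  -- p * ... : n*2 = (p-1)p(p+1) ≥ p^3/2
  have hnp : p ^ 3 ≤ 4 * n := by
    obtain ⟨k, hk⟩ : ∃ k, p = k + 1 := ⟨p - 1, by omega⟩
    have : n * 2 = k * (k + 1) ^ 2 + k * (k + 1) := by rw [hcQ, hk]; simp
    rw [hk]
    have hk4 : 4 ≤ k := by omega
    nlinarith [Nat.mul_le_mul_right (k ^ 2) hk4]
  have hTpos : (0 : ℝ) < T := by
    rw [htot]; positivity
  rw [le_div_iff₀ hTpos]
  have hs : (Nat.card {φ : PP →* Q p // Function.Surjective φ} : ℝ) = T - Nat.card {φ : PP →* Q p // ¬ Function.Surjective φ} := by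
    rw [← hsplit]; push_cast; ring
  rw [hs]
  have hns' : (Nat.card {φ : PP →* Q p // ¬ Function.Surjective φ} : ℝ) ≤ a * B := by exact_mod_cast hns
  have htot' : (T : ℝ) = a * (n * n) := by exact_mod_cast htot
  have hBn' : 2 * (B : ℝ) ≤ C * p ^ 2 * n := by exact_mod_cast hBn
  have hnp' : (p : ℝ) ^ 3 ≤ 4 * n := by exact_mod_cast hnp
  have hpm' : (2 * C : ℝ) / ε < p := hm.trans (by exact_mod_cast hpm)
  have hpR : (0 : ℝ) < p := by exact_mod_cast hp.pos
  have hCp : 2 * (C : ℝ) ≤ ε * p := by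
    rw [div_lt_iff₀ hε] at hpm'
    linarith
  -- B ≤ ε n^2
  have hnR : (0 : ℝ) < n := by exact_mod_cast hnpos
  have haR : (0 : ℝ) < a := by exact_mod_cast hapos
  have hB2 : (B : ℝ) ≤ ε * (n * n) := by
    have h1 : (C : ℝ) * p ^ 2 * 2 ≤ ε * p ^ 3 := by nlinarith [sq_nonneg (p : ℝ)]
    have h2 : ε * (p : ℝ) ^ 3 ≤ ε * (4 * n) := by gcongr
    have h3 : (C : ℝ) * p ^ 2 ≤ 2 * ε * n := by linarith
    have h4 : (C : ℝ) * p ^ 2 * n ≤ 2 * ε * n * n := by gcongr
    linarith
  have : (a : ℝ) * B ≤ a * (ε * (n * n)) := by gcongr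
  rw [htot']
  nlinarith

lemma kill_prop (q : {p : ℕ // p.Prime ∧ 5 ≤ p}) :
    1 / 8 ≤ proportion Gam (PSLFamily q) (fun φ => φ (eGam kel) = 1) := by
  obtain ⟨p, hp, hp5⟩ := q
  have : Fact p.Prime := ⟨hp⟩
  have hp2 : p ≠ 2 := by omega
  change 1 / 8 ≤ proportion Gam (Q p) (fun φ => φ (eGam kel) = 1)
  rw [proportion_eq]
  have hfinQ : Finite (Q p) := inferInstance
  have hfinH : Finite (PP →* Q p) := Finite.of_equiv _ (homEquiv (Q p)).symm
  have h1 := card_kill (Q p)
  have htot := card_hom (Q p)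
  have himp : ∀ φ : PP →* Q p, φ (gen 0 ^ 2) = 1 → ((homCongr eGam (Q p)).symm φ) (eGam kel) = 1 := by
    intro φ h
    change φ (eGam.symm (eGam kel)) = 1
    rw [eGam.symm_apply_apply, kel, map_mul, map_mul, map_mul, h, one_mul, mul_one, map_inv, mul_inv_cancel]
  have h2 : Nat.card {φ : PP →* Q p // φ (gen 0 ^ 2) = 1} ≤
      Nat.card {φ : PP →* Q p // ((homCongr eGam (Q p)).symm φ) (eGam kel) = 1} := by
    refine Nat.card_le_card_of_injective (Subtype.map id himp) ?_
    intro a b h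
    have h' := congrArg (fun u => u.1) h
    exact Subtype.ext h'
  have hsq := card_sq (p := p) hp2
  have hfo := card_fourth (p := p) hp2
  set T := Nat.card (PP →* Q p) with hT
  set a := Nat.card {x : Q p // x ^ 4 = 1} with ha
  set s := Nat.card {x : Q p // x ^ 2 = 1} with hs
  set n := Nat.card (Q p) with hn
  set W := Nat.card {φ : PP →* Q p // ((homCongr eGam (Q p)).symm φ) (eGam kel) = 1} with hW
  have hapos : 0 < a := by
    rw [ha]
    have : Nonempty {x : Q p // x ^ 4 = 1} := ⟨⟨1, one_pow _⟩⟩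
    exact Nat.card_pos
  have hnpos : 0 < n := Nat.card_pos
  have h8 : a ≤ 8 * s := by
    obtain ⟨k, hk⟩ : ∃ k, p = k + 5 := ⟨p - 5, by omega⟩
    have e1 : (p - 1) * p = (k + 4) * (k + 5) := by rw [hk]; rfl
    rw [e1] at hsq
    rw [hk] at hfo
    nlinarith
  have hTpos : (0 : ℝ) < T := by
    rw [htot]; positivity
  rw [le_div_iff₀ hTpos]
  have h9 : T ≤ 8 * W := by
    calc T = a * (n * n) := htot
      _ ≤ (8 * s) * (n * n) := Nat.mul_le_mul_right _ h8
      _ = 8 * (s * (n * n)) := by ring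
      _ ≤ 8 * W := Nat.mul_le_mul_left _ (h1.trans h2)
  have h9' : (T : ℝ) ≤ 8 * W := by exact_mod_cast h9
  linarith

theorem result : ∃ Γ : Subgroup (ℍ ≃ᵢ ℍ), IsFuchsian Γ ∧
    (∀ g ∈ Γ, ∃ A : SL(2, ℝ), ∀ z : ℍ, g z = A • z) ∧
    IsInfiniteSetOfFiniteSimpleGroups PSLFamily ∧ HypothesisH Γ PSLFamily ∧
    ∃ γ : Γ, ¬ IsOfFinOrder γ ∧
      ∀ q, 1 / 8 ≤ proportion Γ (PSLFamily q) (fun φ => φ γ = 1) := by
  refine ⟨Gam, Gam_fuchsian, Gam_oriented, family_ok, hypH, eGam kel, ?_, kill_prop⟩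
  intro h
  apply kel_inf
  have h2 : IsOfFinOrder ((eGam kel : Gam) : ℍ ≃ᵢ ℍ) := by
    exact Gam.subtype.isOfFinOrder h
  exact h2


end Pool.Agent.Results.MP_b9a4b9_al.Disproof
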